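import Pool.Agent.Helper1.OA.Defs

namespace Pool.Agent.Helper1.OA

open Finset

/-- the conditions on a diagram -/
structure Val {V : Type} (ι : Equiv.Perm (V × Fin 3)) (K : Set V) : Prop where
  invol : ∀ h, ι (ι h) = h
  nofix : ∀ h, ι h ≠ h
  next : ∀ i ∈ K, (ι (i, 2)).1 ∈ K ∧ (ι (i, 2)).2 = 1
  nonempty : K.Nonempty
  circle : ∀ P ⊆ K, P.Nonempty → (∀ i ∈ P, (ι (i, 2)).1 ∈ P) → P = K
  conn : ∀ P : Set V, P.Nonempty → (∀ i ∈ P, ∀ k, (ι (i, k)).1 ∈ P) → P = Set.univ

theorem Diag.val {V : Type} (D : Diag V) : Val D.ι D.K :=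
  ⟨D.invol, D.nofix, D.next, D.nonempty, D.circle, D.conn⟩

/-- the diagram of valid data -/
def Val.diag {V : Type} {ι : Equiv.Perm (V × Fin 3)} {K : Set V} (h : Val ι K) : Diag V :=
  ⟨ι, K, h.invol, h.nofix, h.next, h.nonempty, h.circle, h.conn⟩

/-- conjugation -/
def cj {V V' : Type} (g : V × Fin 3 ≃ V' × Fin 3) (ι : Equiv.Perm (V × Fin 3)) :
    Equiv.Perm (V' × Fin 3) := g.symm.trans (ι.trans g)

section
variable {V V' V'' : Type}

theorem cj_apply (g : V × Fin 3 ≃ V' × Fin 3) (ι : Equiv.Perm (V × Fin 3)) (x : V × Fin 3) :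
    cj g ι (g x) = g (ι x) := by simp [cj]

theorem cj_trans (g : V × Fin 3 ≃ V' × Fin 3) (g' : V' × Fin 3 ≃ V'' × Fin 3)
    (ι : Equiv.Perm (V × Fin 3)) : cj (g.trans g') ι = cj g' (cj g ι) := rfl

theorem cj_mul (g g' ι : Equiv.Perm (V × Fin 3)) : cj (g * g') ι = cj g (cj g' ι) := rfl

theorem cj_perm (g ι : Equiv.Perm (V × Fin 3)) : cj g ι = g * ι * g⁻¹ := rfl

theorem cj_one (ι : Equiv.Perm (V × Fin 3)) : cj (1 : Equiv.Perm (V × Fin 3)) ι = ι := rfl

theorem cj_symm (g : V × Fin 3 ≃ V' × Fin 3) (ι : Equiv.Perm (V × Fin 3)) :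
    cj g.symm (cj g ι) = ι := by
  ext x : 1
  simp [cj]

theorem cj_eq_of {g : V × Fin 3 ≃ V' × Fin 3} {ι : Equiv.Perm (V × Fin 3)}
    {ι' : Equiv.Perm (V' × Fin 3)} (h : ∀ x, ι' (g x) = g (ι x)) : cj g ι = ι' := by
  ext x : 1
  obtain ⟨y, rfl⟩ := g.surjective x
  rw [cj_apply, h]

theorem au_apply (s : V ≃ V') (r : V → Equiv.Perm (Fin 3)) (i : V) (k : Fin 3) :
    au s r (i, k) = (s i, r i k) := rfl

theorem Val.au {ι : Equiv.Perm (V × Fin 3)} {K : Set V} (h : Val ι K) (s : V ≃ V')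
    (r : V → Equiv.Perm (Fin 3)) (hr : ∀ i ∈ K, r i = 1) : Val (cj (au s r) ι) (s '' K) := by
  have ap : ∀ x, cj (OA.au s r) ι (OA.au s r x) = OA.au s r (ι x) := cj_apply _ _
  have fst : ∀ x : V × Fin 3, (OA.au s r x).1 = s x.1 := fun x => rfl
  have k2 : ∀ i ∈ K, OA.au s r (i, 2) = (s i, 2) := by
    intro i hi; rw [au_apply, hr i hi]; rfl
  refine ⟨?_, ?_, ?_, h.nonempty.image _, ?_, ?_⟩
  · intro x
    obtain ⟨y, rfl⟩ := (OA.au s r).surjective x
    rw [ap, ap, h.invol]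
  · intro x
    obtain ⟨y, rfl⟩ := (OA.au s r).surjective x
    rw [ap]
    exact fun e => h.nofix y ((OA.au s r).injective e)
  · rintro _ ⟨i, hi, rfl⟩
    obtain ⟨h1, h2⟩ := h.next i hi
    rw [← k2 i hi, ap]
    refine ⟨⟨_, h1, rfl⟩, ?_⟩
    show r (ι (i, 2)).1 (ι (i, 2)).2 = 1
    rw [hr _ h1, h2]
    rfl
  · intro P hP hne hcl
    have h1 : s ⁻¹' P = K := by
      apply h.circle
      · intro i hi
        obtain ⟨j, hj, e⟩ := hP hi
        rw [← s.injective e]; exact hj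
      · obtain ⟨x, hx⟩ := hne
        exact ⟨s.symm x, by simpa using hx⟩
      · intro i hi
        have hiK : i ∈ K := by
          obtain ⟨j, hj, e⟩ := hP hi
          rw [← s.injective e]; exact hj
        have := hcl (s i) hi
        rw [← k2 i hiK, ap] at this
        exact this
    rw [← h1, Set.image_preimage_eq _ s.surjective]
  · intro P hne hcl
    have h1 : s ⁻¹' P = Set.univ := by
      apply h.conn
      · obtain ⟨x, hx⟩ := hne
        exact ⟨s.symm x, by simpa using hx⟩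
      · intro i hi k
        have := hcl (s i) hi (r i k)
        rw [← au_apply, ap] at this
        exact this
    apply Set.eq_univ_of_forall
    intro x
    have : s.symm x ∈ s ⁻¹' P := by rw [h1]; trivial
    simpa using this

/-- `x` is the class of the diagram -/
def Rep (ι : Equiv.Perm (V × Fin 3)) (K : Set V) (x : A) : Prop :=
  ∃ (n : ℕ) (e : V ≃ Fin n) (D : Diag (Fin n)), D.ι = cj (au e fun _ => 1) ι ∧ D.K = e '' K ∧
    x = cls D

theorem rel_cls {x : Free} (h : Rel x) : (QuotientAddGroup.mk x : A) = 0 := by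
  rw [QuotientAddGroup.eq_zero_iff]
  exact AddSubgroup.subset_closure h

theorem au_trans (s : V ≃ V') (s' : V' ≃ V'') :
    ((au s fun _ => 1).trans (au s' fun _ => 1)) = (au (s.trans s') fun _ => 1) := rfl

theorem Rep.unique [Finite V] {ι : Equiv.Perm (V × Fin 3)} {K : Set V} {x y : A}
    (hx : Rep ι K x) (hy : Rep ι K y) : x = y := by
  obtain ⟨n, e, D, h1, h2, rfl⟩ := hx
  obtain ⟨m, e', D', h1', h2', rfl⟩ := hy
  have hnm : n = m := by
    have := Nat.card_congr (e.symm.trans e')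
    simpa using this
  subst hnm
  have hM : Moved (au (e.symm.trans e') fun _ => 1) D D' := by
    show D'.ι = cj (au (e.symm.trans e') fun _ => 1) D.ι
    rw [h1, h1', ← cj_trans, au_trans]
    congr 2
    ext i
    simp
  have hK : D'.K = (e.symm.trans e') '' D.K := by
    rw [h2, h2', ← Set.image_comp]
    congr 1
    ext i
    simp
  have := rel_cls (Rel.vert _ D D' hM hK)
  rw [QuotientAddGroup.mk_sub, sub_eq_zero] at this
  exact this.symm

theorem exists_rep [Finite V] {ι : Equiv.Perm (V × Fin 3)} {K : Set V} (h : Val ι K) :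
    ∃ x, Rep ι K x := by
  obtain ⟨n, ⟨e⟩⟩ := Finite.exists_equiv_fin V
  exact ⟨_, n, e, (h.au e (fun _ => 1) fun _ _ => rfl).diag, rfl, rfl, rfl⟩

open Classical in
/-- the class -/
noncomputable def cl [Finite V] (ι : Equiv.Perm (V × Fin 3)) (K : Set V) : A :=
  if h : Val ι K then (exists_rep h).choose else 0

theorem cl_rep [Finite V] {ι : Equiv.Perm (V × Fin 3)} {K : Set V} (h : Val ι K) :
    Rep ι K (cl ι K) := by
  unfold cl
  rw [dif_pos h]
  exact (exists_rep h).choose_spec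

theorem cl_eq [Finite V] {ι : Equiv.Perm (V × Fin 3)} {K : Set V} (h : Val ι K) {x : A}
    (hx : Rep ι K x) : cl ι K = x := (cl_rep h).unique hx

/-- the class can be computed with every numbering of the vertices -/
theorem cl_num [Finite V] {ι : Equiv.Perm (V × Fin 3)} {K : Set V} (h : Val ι K) {n : ℕ}
    (e : V ≃ Fin n) : cl ι K = cls (h.au e (fun _ => 1) fun _ _ => rfl).diag :=
  cl_eq h ⟨n, e, _, rfl, rfl, rfl⟩

theorem cls_eq {n : ℕ} (D : Diag (Fin n)) : cls D = cl D.ι D.K := by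
  symm
  apply cl_eq D.val
  refine ⟨n, Equiv.refl _, D, ?_, ?_, rfl⟩
  · rfl
  · simp

theorem cl_iso [Finite V] [Finite V'] {ι : Equiv.Perm (V × Fin 3)} {K : Set V} (h : Val ι K)
    (s : V ≃ V') : cl (cj (au s fun _ => 1) ι) (s '' K) = cl ι K := by
  obtain ⟨n, ⟨e⟩⟩ := Finite.exists_equiv_fin V'
  have h1 := h.au s (fun _ => 1) fun _ _ => rfl
  rw [cl_num h1 e]
  symm
  apply cl_eq h
  refine ⟨n, s.trans e, _, ?_, ?_, rfl⟩
  · rfl
  · show e '' (s '' K) = _
    rw [← Set.image_comp]; rfl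

theorem val_swap [DecidableEq V] {ι : Equiv.Perm (V × Fin 3)} {K : Set V} (h : Val ι K) {i : V}
    (hi : i ∉ K) (k k' : Fin 3) : Val (cj (Equiv.swap (i, k) (i, k')) ι) K := by
  have e : (Equiv.swap (i, k) (i, k') : Equiv.Perm (V × Fin 3)) =
      au (Equiv.refl V) (fun j => if j = i then Equiv.swap k k' else 1) := by
    ext x : 1
    rcases x with ⟨j, m⟩
    rw [au_apply]
    by_cases hj : j = i
    · subst hj
      simp only [Equiv.swap_apply_def, Prod.mk.injEq, true_and, if_true]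
      split_ifs <;> rfl
    · rw [Equiv.swap_apply_of_ne_of_ne] <;> simp [hj]
  have h1 := h.au (Equiv.refl V) (fun j => if j = i then Equiv.swap k k' else 1)
    (fun j hj => if_neg (fun e => hi (by rw [← e]; exact hj)))
  rw [← e] at h1
  simpa using h1

theorem cl_swap [Finite V] [DecidableEq V] {ι : Equiv.Perm (V × Fin 3)} {K : Set V}
    (h : Val ι K) {i : V} (hi : i ∉ K) {k k' : Fin 3} (hk : k ≠ k') :
    cl (cj (Equiv.swap (i, k) (i, k')) ι) K = - cl ι K := by
  obtain ⟨n, ⟨e⟩⟩ := Finite.exists_equiv_fin V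
  have h1 := val_swap h hi k k'
  rw [cl_num h e, cl_num h1 e]
  have hM : Moved (Equiv.swap (e i, k) (e i, k')) (h.au e (fun _ => 1) fun _ _ => rfl).diag
      (h1.au e (fun _ => 1) fun _ _ => rfl).diag := by
    show cj (au e fun _ => 1) (cj (Equiv.swap (i, k) (i, k')) ι) =
      cj (Equiv.swap (e i, k) (e i, k')) (cj (au e fun _ => 1) ι)
    apply cj_eq_of
    intro x
    have hs : ∀ y : V × Fin 3, (au e fun _ => 1) (Equiv.swap (i, k) (i, k') y) =
        Equiv.swap (e i, k) (e i, k') ((au e fun _ => 1) y) := by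
      intro y
      have := (au e fun _ => 1).injective.swap_apply (i, k) (i, k') y
      exact this.symm
    obtain ⟨y, rfl⟩ := (Equiv.swap (i, k) (i, k')).surjective x
    rw [hs, cj_apply, cj_apply, cj_apply, hs]
  have := rel_cls (Rel.as (e i) k k' hk _ _ (by
    rintro ⟨j, hj, ej⟩
    exact hi (e.injective ej ▸ hj)) hM rfl)
  rw [QuotientAddGroup.mk_add] at this
  exact eq_neg_of_add_eq_zero_left this

end

end Pool.Agent.Helper1.OA
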