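import Mathlib

namespace Pool.Agent.Helper1.OA

open Finset

section cob
variable {X G : Type} [CommGroup G] (σ : Equiv.Perm X) (c : X → G)

/-- product along an orbit -/
def hol (q : ℕ) (x : X) : G := ∏ i ∈ range q, c ((σ ^ i) x)

theorem hol_zero (x : X) : hol σ c 0 x = 1 := by simp [hol]

theorem hol_succ (q : ℕ) (x : X) : hol σ c (q + 1) x = hol σ c q x * c ((σ ^ q) x) := by
  unfold hol; rw [Finset.prod_range_succ]

theorem hol_one (x : X) : hol σ c 1 x = c x := by simp [hol]

theorem hol_add (q q' : ℕ) (x : X) :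
    hol σ c (q + q') x = hol σ c q x * hol σ c q' ((σ ^ q) x) := by
  induction q' with
  | zero => simp [hol_zero]
  | succ n ih =>
    rw [← add_assoc, hol_succ, hol_succ, ih, mul_assoc]
    congr 2
    rw [← Equiv.Perm.mul_apply, ← pow_add, add_comm]

/-- A cocycle with trivial holonomy is a coboundary. -/
theorem exists_cob [Finite X] (h : ∀ x (q : ℕ), (σ ^ q) x = x → hol σ c q x = 1) :
    ∃ u : X → G, ∀ x, u (σ x) = c x * u x := by
  have wd : ∀ (b : X) (a a' : ℕ), (σ ^ a) b = (σ ^ a') b → hol σ c a b = hol σ c a' b := by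
    have key : ∀ (b : X) (a a' : ℕ), a ≤ a' → (σ ^ a) b = (σ ^ a') b →
        hol σ c a b = hol σ c a' b := by
      intro b a a' haa e
      obtain ⟨n, rfl⟩ := Nat.exists_eq_add_of_le haa
      rw [hol_add, h _ n, mul_one]
      rw [← Equiv.Perm.mul_apply, ← pow_add, add_comm, ← e]
    intro b a a' e
    rcases le_total a a' with h | h
    · exact key b a a' h e
    · exact (key b a' a h e.symm).symm
  set rep : X → X := fun x => (Quotient.mk (Equiv.Perm.SameCycle.setoid σ) x).out with hrep
  have h1 : ∀ x, Equiv.Perm.SameCycle σ (rep x) x := fun x => Quotient.mk_out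
    (s := Equiv.Perm.SameCycle.setoid σ) x
  have h2 : ∀ x, rep (σ x) = rep x := by
    intro x
    rw [hrep]
    simp only
    congr 1
    apply Quotient.sound
    show Equiv.Perm.SameCycle σ (σ x) x
    exact (Equiv.Perm.SameCycle.refl σ x).apply_left
  have ex : ∀ x, ∃ q : ℕ, (σ ^ q) (rep x) = x := by
    intro x
    obtain ⟨q, _, hq⟩ := (h1 x).exists_pow_eq'
    exact ⟨q, hq⟩
  choose q hq using ex
  refine ⟨fun x => hol σ c (q x) (rep x), fun x => ?_⟩
  show hol σ c (q (σ x)) (rep (σ x)) = c x * hol σ c (q x) (rep x)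
  have e1 : (σ ^ (q (σ x))) (rep x) = (σ ^ (q x + 1)) (rep x) := by
    have := hq (σ x)
    rw [h2] at this
    rw [this, pow_succ', Equiv.Perm.mul_apply, hq]
  rw [h2, wd _ _ _ e1, hol_succ, hq, mul_comm]

/-- holonomy is multiplicative in the number of turns -/
theorem hol_mul (m : ℕ) (x : X) (hm : (σ ^ m) x = x) (a : ℕ) :
    hol σ c (m * a) x = hol σ c m x ^ a := by
  induction a with
  | zero => simp [hol_zero]
  | succ a ih =>
    rw [Nat.mul_succ, hol_add, ih, pow_succ]
    have : (σ ^ (m * a)) x = x := by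
      rw [pow_mul]
      clear ih
      induction a with
      | zero => rfl
      | succ a ih => rw [pow_succ, Equiv.Perm.mul_apply, hm, ih]
    rw [this]

theorem prod_cob [Fintype X] {u : X → G} (h : ∀ x, u (σ x) = c x * u x) : ∏ x, c x = 1 := by
  have e : ∏ x, u (σ x) = ∏ x, u x := Equiv.prod_comp σ u
  simp only [h] at e
  rw [Finset.prod_mul_distrib] at e
  exact mul_eq_right.1 e

end cob

/-- Cancellation along the orbits of a permutation of two-power order. -/
theorem sum_canc {X B : Type} [Fintype X] [DecidableEq X] [AddCommGroup B] (σ : Equiv.Perm X)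
    (T : X → B) (hT : ∀ x, T (σ x) = - T x) (N : ℕ) (hN : σ ^ (2 ^ N) = 1) :
    ∑ x, T x = ∑ x ∈ univ.filter (fun x => σ x = x), T x := by
  classical
  set c : X → ℤˣ := fun x => if σ x = x then 1 else -1 with hc
  have horb : ∀ (x : X) (i : ℕ), (σ ((σ ^ i) x) = (σ ^ i) x ↔ σ x = x) := by
    intro x i
    have : σ ((σ ^ i) x) = (σ ^ i) (σ x) := by
      rw [← Equiv.Perm.mul_apply, ← Equiv.Perm.mul_apply, ← pow_succ, ← pow_succ']
    rw [this]
    exact (σ ^ i).injective.eq_iff
  have hcq : ∀ (x : X) (q : ℕ), hol σ c q x = c x ^ q := by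
    intro x q
    unfold hol
    have : ∀ i, c ((σ ^ i) x) = c x := by
      intro i
      simp only [hc, horb x i]
    simp [this]
  have hhol : ∀ x (q : ℕ), (σ ^ q) x = x → hol σ c q x = 1 := by
    intro x q hq
    rw [hcq]
    by_cases hx : σ x = x
    · simp [hc, hx]
    · have hcx : c x = -1 := if_neg hx
      rw [hcx]
      apply Even.neg_one_pow
      by_contra hodd
      rw [Nat.not_even_iff_odd] at hodd
      -- `q` and `2 ^ N` are coprime, so `σ x = x`
      have hcop : Nat.Coprime q (2 ^ N) := by
        apply Nat.Coprime.pow_right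
        exact Nat.coprime_two_right.2 hodd
      have h1 : Function.IsPeriodicPt σ q x := by
        rw [Function.IsPeriodicPt, Function.IsFixedPt, Equiv.Perm.iterate_eq_pow]
        exact hq
      have h2 : Function.IsPeriodicPt σ (2 ^ N) x := by
        rw [Function.IsPeriodicPt, Function.IsFixedPt, Equiv.Perm.iterate_eq_pow, hN]
        rfl
      have h3 := h1.gcd h2
      rw [hcop] at h3
      exact hx h3
  obtain ⟨u, hu⟩ := exists_cob σ c hhol
  have hne : ∀ x, σ x ≠ x → u (σ x) = - u x := by
    intro x hx
    have hcx : c x = -1 := if_neg hx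
    rw [hu, hcx, neg_one_mul]
  rw [← Finset.sum_filter_add_sum_filter_not univ (fun x => σ x = x)]
  have h0 : ∑ x ∈ univ.filter (fun x => ¬ σ x = x), T x = 0 := by
    rw [← Finset.sum_filter_add_sum_filter_not (univ.filter (fun x => ¬ σ x = x)) (fun x => u x = 1)]
    have e : ∑ x ∈ (univ.filter (fun x => ¬ σ x = x)).filter (fun x => ¬ u x = 1), T x =
        ∑ x ∈ (univ.filter (fun x => ¬ σ x = x)).filter (fun x => u x = 1), T (σ x) := by
      symm
      refine Finset.sum_bij' (fun x _ => σ x) (fun x _ => σ.symm x) ?_ ?_ ?_ ?_ ?_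
      · intro x hx
        simp only [Finset.mem_filter, mem_univ, true_and] at hx ⊢
        refine ⟨fun h => hx.1 (σ.injective h), ?_⟩
        rw [hne x hx.1, hx.2]
        decide
      · intro x hx
        simp only [Finset.mem_filter, mem_univ, true_and] at hx ⊢
        have h1 : ¬ σ (σ.symm x) = σ.symm x := by
          intro h
          apply hx.1
          rw [Equiv.apply_symm_apply] at h
          conv_lhs => rw [h]
          exact Equiv.apply_symm_apply _ _
        refine ⟨h1, ?_⟩
        have h2 := hne _ h1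
        rw [Equiv.apply_symm_apply] at h2
        rcases Int.units_eq_one_or (u (σ.symm x)) with h3 | h3
        · exact h3
        · exfalso
          rw [h3, neg_neg] at h2
          exact hx.2 h2
      · intro x _; simp
      · intro x _; simp
      · intro x _; rfl
    rw [e]
    simp only [hT]
    rw [Finset.sum_neg_distrib]
    abel
  rw [h0, add_zero]

end Pool.Agent.Helper1.OA
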