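import Mathlib

/-!
Jacobi diagrams on the oriented circle over the integers, as trivalent graphs with a distinguished
oriented cycle, modulo AS, IHX and STU.
-/

namespace Pool.Agent.Helper1.OA

/-- A Jacobi diagram on the oriented circle with the vertices `i : V` (on the circle or not). The
half-edges at `i` are `(i, 0), (i, 1), (i, 2)`, the involution `ι` gives the edges. `K` is the set
of the vertices on the circle; at such a vertex `(i, 1)` is the incoming and `(i, 2)` the outgoing
arc of the circle and `(i, 0)` the end of the uni-trivalent graph. The other vertices are oriented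
by the cyclic order `0, 1, 2`. The arcs form one circle, and the whole graph (with the circle) is
connected, i.e. every component of the uni-trivalent graph has an end on the circle. -/
structure Diag (V : Type) where
  ι : Equiv.Perm (V × Fin 3)
  K : Set V
  invol : ∀ h, ι (ι h) = h
  nofix : ∀ h, ι h ≠ h
  next : ∀ i ∈ K, (ι (i, 2)).1 ∈ K ∧ (ι (i, 2)).2 = 1
  nonempty : K.Nonempty
  circle : ∀ P ⊆ K, P.Nonempty → (∀ i ∈ P, (ι (i, 2)).1 ∈ P) → P = K
  conn : ∀ P : Set V, P.Nonempty → (∀ i ∈ P, ∀ k, (ι (i, k)).1 ∈ P) → P = Set.univ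

/-- `D'` is obtained from `D` by moving the ends of the edges by the permutation `g`. -/
def Moved {V : Type} (g : Equiv.Perm (V × Fin 3)) (D D' : Diag V) : Prop :=
  D'.ι = g * D.ι * g⁻¹

/-- The permutation of the half-edges given by a permutation `s` of the vertices and permutations
`r i` of the three half-edges at the vertices `i`. -/
def au {V V' : Type} (s : V ≃ V') (r : V → Equiv.Perm (Fin 3)) : V × Fin 3 ≃ V' × Fin 3 where
  toFun h := (s h.1, r h.1 h.2)
  invFun h := (s.symm h.1, (r (s.symm h.1)).symm h.2)
  left_inv h := by simp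
  right_inv h := by simp

/-- The free abelian group on all Jacobi diagrams. -/
abbrev Free : Type := FreeAbelianGroup (Σ n : ℕ, Diag (Fin n))

/-- The generator given by a diagram. -/
def gen {n : ℕ} (D : Diag (Fin n)) : Free := FreeAbelianGroup.of ⟨n, D⟩

/-- The relations. -/
inductive Rel : Free → Prop
  /-- renumbering the vertices does not change the diagram -/
  | vert {n : ℕ} (s : Equiv.Perm (Fin n)) (D D' : Diag (Fin n)) (h : Moved (au s fun _ => 1) D D')
      (hK : D'.K = s '' D.K) : Rel (gen D' - gen D)
  /-- AS: exchanging two half-edges at a vertex not on the circle changes the sign -/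
  | as {n : ℕ} (i : Fin n) (k k' : Fin 3) (hk : k ≠ k') (D D' : Diag (Fin n)) (hi : i ∉ D.K)
      (h : Moved (Equiv.swap (i, k) (i, k')) D D') (hK : D'.K = D.K) : Rel (gen D' + gen D)
  /-- IHX: if `(i, 0)` and `(j, 0)` form an edge between different vertices not on the circle, then
  the sum over the three cyclic permutations of three of the four adjacent half-edges is zero -/
  | ihx {n : ℕ} (i j : Fin n) (hij : i ≠ j) (D D' D'' : Diag (Fin n)) (hi : i ∉ D.K) (hj : j ∉ D.K)
      (he : D.ι (i, 0) = (j, 0))
      (h' : Moved (Equiv.swap (i, 2) (j, 2) * Equiv.swap (i, 2) (j, 1)) D D')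
      (h'' : Moved (Equiv.swap (i, 2) (j, 2) * Equiv.swap (i, 2) (j, 1)) D' D'')
      (hK' : D'.K = D.K) (hK'' : D''.K = D.K) : Rel (gen D + gen D' + gen D'')
  /-- STU: `(i, 0)` and `(j, 0)` form an edge, `i` is on the circle and `j` is not. In `T` also `j`
  is on the circle, as the successor of `i` (the arc from `i` to `j` consists of the half-edges
  `(i, 2)` and `(j, 1)`), the end of `(j, 1)` has been moved to `(i, 0)`, the end of `(j, 2)` to
  `(j, 0)`, and the end of the arc leaving `i` to `(j, 2)`; in `U` the ends of `(j, 1)` and `(j, 2)`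
  are exchanged. -/
  | stu {n : ℕ} (i j : Fin n) (S T U : Diag (Fin n)) (hi : i ∈ S.K) (hj : j ∉ S.K)
      (he : S.ι (i, 0) = (j, 0))
      (hT : Moved ([(i, 0), (i, 2), (j, 2), (j, 0), (j, 1)] : List (Fin n × Fin 3)).formPerm S T)
      (hU : Moved (([(i, 0), (i, 2), (j, 2), (j, 0), (j, 1)] : List (Fin n × Fin 3)).formPerm *
        Equiv.swap (j, 1) (j, 2)) S U)
      (hKT : T.K = insert j S.K) (hKU : U.K = insert j S.K) : Rel (gen T - gen U - gen S)

/-- The group of Jacobi diagrams on the circle with integral coefficients. -/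
abbrev A : Type := Free ⧸ AddSubgroup.closure {x : Free | Rel x}

/-- The class of a diagram. -/
def cls {n : ℕ} (D : Diag (Fin n)) : A := QuotientAddGroup.mk (gen D)

end Pool.Agent.Helper1.OA
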