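import Pool.Agent.Helper1.OA.Main

namespace Pool.Agent.Helper1.OA

open Finset

section
variable {V : Type} [Fintype V] [DecidableEq V] {s : Equiv.Perm V} {r : V → Equiv.Perm (Fin 3)}
  {ι : Equiv.Perm (V × Fin 3)} {K : Set V}

/-- an edge from a vertex not on the circle to a vertex on the circle ends in the slot `0` -/
theorem slot_zero (hι : Val ι K) {v w : V} {k k1 : Fin 3} (hv : v ∉ K) (hw : w ∈ K)
    (he : ι (v, k) = (w, k1)) : k1 = 0 := by
  have he' : ι (w, k1) = (v, k) := by rw [← he, hι.invol]
  have hP : {x | ∃ i ∈ K, (ι (i, 2)).1 = x} = K := by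
    apply hι.circle
    · rintro _ ⟨i, hi, rfl⟩
      exact (hι.next i hi).1
    · obtain ⟨i, hi⟩ := hι.nonempty
      exact ⟨_, i, hi, rfl⟩
    · rintro _ ⟨i, hi, rfl⟩
      exact ⟨_, (hι.next i hi).1, rfl⟩
  have h1 : k1 ≠ 1 := by
    rintro rfl
    rw [← hP] at hw
    obtain ⟨i, hi, e⟩ := hw
    have h2 : ι (i, 2) = (w, 1) := Prod.ext e (hι.next i hi).2
    have h3 : ι (w, 1) = (i, 2) := by rw [← h2, hι.invol]
    rw [h3] at he'
    rw [← (Prod.mk.inj he').1] at hv
    exact hv hi
  have h2 : k1 ≠ 2 := by
    rintro rfl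
    have h3 := (hι.next w hw).1
    rw [he'] at h3
    exact hv h3
  have h3 : ∀ k : Fin 3, k ≠ 1 → k ≠ 2 → k = 0 := by decide
  exact h3 k1 h1 h2

theorem core (hι : Val ι K) (h : Odd' ι K s r) (N : ℕ)
    (hN : (au s r : Equiv.Perm (V × Fin 3)) ^ (2 ^ N) = 1)
    (IH : ∀ (V' : Type) [Fintype V'] [DecidableEq V'] (ι' : Equiv.Perm (V' × Fin 3))
      (K' : Set V') (s' : Equiv.Perm V') (r' : V' → Equiv.Perm (Fin 3)), Val ι' K' →
      Odd' ι' K' s' r' → Set.ncard {x | Fl s' r' x} < Set.ncard {x | Fl s r x} → cl ι' K' = 0) :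
    cl ι K = 0 := by
  classical
  obtain ⟨v0, hv0⟩ := exists_fl s r h.sign
  obtain ⟨v, hv, hmin⟩ := Finset.exists_min_image (univ.filter fun v => Fl s r v)
    (fun v => Function.minimalPeriod s v) ⟨v0, by simp [hv0]⟩
  have hvF : Fl s r v := (Finset.mem_filter.1 hv).2
  have hmin' : ∀ w, Fl s r w → Function.minimalPeriod s v ≤ Function.minimalPeriod s w :=
    fun w hw => hmin w (by simp [hw])
  set m := Function.minimalPeriod s v with hm
  have hNs : ∀ x k, (s ^ (2 ^ N)) x = x ∧ rq s r (2 ^ N) x k = k := by
    intro x k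
    have h1 := au_pow s r (2 ^ N) x k
    rw [hN] at h1
    exact ⟨(Prod.mk.inj h1).1.symm, (Prod.mk.inj h1).2.symm⟩
  have hmN : m ∣ 2 ^ N := per_dvd (hNs v 0).1
  have hmpos : 0 < m := Nat.pos_of_dvd_of_pos hmN (by positivity)
  obtain ⟨al, hal, hmal⟩ := (Nat.dvd_prime_pow Nat.prime_two).1 hmN
  have hmv : (s ^ m) v = v := per_fix v
  have hsgv : Equiv.Perm.sign (rq s r m v) = -1 := fl_sign hvF
  have hholv : hol s (sgn r) m v = -1 := by rw [← sign_rq]; exact hsgv
  obtain ⟨a, ha⟩ := exists_flip _ hsgv
  have hφa : ∀ k, ((au s r : Equiv.Perm (V × Fin 3)) ^ m) (v, a k) = (v, a (Equiv.swap 1 2 k)) := by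
    intro k
    rw [au_pow, hmv, ha]
  have ha0 : Equiv.swap (1 : Fin 3) 2 0 = 0 := by decide
  obtain ⟨w, k1, hw⟩ : ∃ w k1, ι (v, a 0) = (w, k1) := ⟨_, _, rfl⟩
  have hw' : ι (w, k1) = (v, a 0) := by rw [← hw, hι.invol]
  have hφw : ((au s r : Equiv.Perm (V × Fin 3)) ^ m) (w, k1) = (w, k1) := by
    rw [← hw, ← comm_pow h.hφ, hφa, ha0]
  have hmw : (s ^ m) w = w := by
    rw [au_pow] at hφw
    exact (Prod.mk.inj hφw).1
  have hk1 : rq s r m w k1 = k1 := by
    rw [au_pow] at hφw
    exact (Prod.mk.inj hφw).2
  have hwv : w ≠ v := by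
    rintro rfl
    obtain ⟨k, rfl⟩ := a.surjective k1
    rw [ha] at hk1
    have := swap_fix k (a.injective hk1)
    subst this
    exact hι.nofix _ hw
  have hvK : v ∉ K := by
    intro hK
    rw [(rq_K s r h.hs h.hr m hK).2] at hsgv
    simp at hsgv
  by_cases hB : ∃ q, (s ^ q) v = w
  · -- the edge is reversed
    obtain ⟨q, hq⟩ := hB
    have hq' : (s ^ (q % m)) v = w := by
      have h1 : (s ^ (q % m + m * (q / m))) v = w := by rw [Nat.mod_add_div]; exact hq
      have h2 : (s ^ (m * (q / m))) v = v := by
        have : Function.IsPeriodicPt s (m * (q / m)) v :=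
          (Function.isPeriodicPt_minimalPeriod s v).mul_const _
        rw [Function.IsPeriodicPt, Function.IsFixedPt, Equiv.Perm.iterate_eq_pow] at this
        exact this
      rw [pow_add, Equiv.Perm.mul_apply, h2] at h1
      exact h1
    set q1 := q % m with hq1
    have hq1m : q1 < m := Nat.mod_lt _ hmpos
    have hq1pos : 0 < q1 := by
      rcases Nat.eq_zero_or_pos q1 with h0 | h0
      · rw [h0] at hq'
        exact absurd hq'.symm hwv
      · exact h0
    have hbm : ∀ k, rq s r m w ((rq s r q1 v * a) k) =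
        (rq s r q1 v * a) (Equiv.swap 1 2 k) := by
      intro k
      have h1 : ((au s r : Equiv.Perm (V × Fin 3)) ^ m)
          (((au s r : Equiv.Perm (V × Fin 3)) ^ q1) (v, a k)) =
          ((au s r : Equiv.Perm (V × Fin 3)) ^ q1)
          (((au s r : Equiv.Perm (V × Fin 3)) ^ m) (v, a k)) := by
        rw [← Equiv.Perm.mul_apply, ← Equiv.Perm.mul_apply, ← pow_add, ← pow_add, add_comm]
      rw [hφa, au_pow s r q1 v, hq', au_pow s r m w, au_pow s r q1 v, hq'] at h1
      exact (Prod.mk.inj h1).2
    have hb0 : (rq s r q1 v * a) 0 = k1 := by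
      obtain ⟨k, hk⟩ := (rq s r q1 v * a).surjective k1
      rw [← hk, hbm] at hk1
      have := swap_fix k ((rq s r q1 v * a).injective hk1)
      rw [← hk, this]
    have hφq : ∀ k, ((au s r : Equiv.Perm (V × Fin 3)) ^ q1) (v, a k) =
        (w, (rq s r q1 v * a) k) := by
      intro k
      rw [au_pow, hq']
      rfl
    have h2q : (s ^ (q1 + q1)) v = v := by
      have h1 : ((au s r : Equiv.Perm (V × Fin 3)) ^ (q1 + q1)) (v, a 0) = (v, a 0) := by
        rw [pow_add, Equiv.Perm.mul_apply, hφq, hb0, ← hw, ← comm_pow h.hφ, hφq, hb0, hw']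
      rw [au_pow] at h1
      exact (Prod.mk.inj h1).1
    have hm2 : m = q1 + q1 := by
      obtain ⟨c, hc⟩ := per_dvd h2q
      rw [← hm] at hc
      have hc1 : c = 1 := by
        have h1 : m * c < m * 2 := by omega
        have h2 : c < 2 := Nat.lt_of_mul_lt_mul_left h1
        have h3 : c ≠ 0 := by
          rintro rfl
          omega
        omega
      rw [hc, hc1, mul_one]
    obtain ⟨n, hn⟩ : ∃ n, q1 = n + 1 := ⟨q1 - 1, by omega⟩
    have hwK : w ∉ K := by
      rw [← hq', K_pow s h.hs]
      exact hvK
    have hholq : hol s (sgn r) q1 v * hol s (sgn r) q1 w = -1 := by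
      rw [← hholv, hm2, hol_add, hq']
    rw [hn] at hholq
    refine red_ihx (n := n) (bs := fun b => cond b w v)
      (aS := fun b => cond b (rq s r q1 v * a) a) d1 rfl ?_ rfl ?_ rfl rfl hι h ?_ ?_ ?_ ?_ hholq
    · intro j
      fin_cases j
      · exact ⟨_, _, rfl⟩
      · exact ⟨_, _, rfl⟩
    · intro j
      fin_cases j
      · exact Or.inr rfl
      · exact Or.inl rfl
    · have e1 : ∀ i : ℕ, (s ^ i) w = (s ^ (i + q1)) v := by
        intro i
        rw [pow_add, Equiv.Perm.mul_apply, hq']
      rintro ⟨i, b⟩ ⟨i', b'⟩ hii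
      have hi := i.2
      have hi' := i'.2
      cases b <;> cases b'
      · have := per_inj (s := s) (v := v) (i := i) (j := i') (by omega) (by omega) hii
        rw [Fin.ext this]
      · have hii' : (s ^ (i : ℕ)) v = (s ^ ((i' : ℕ) + q1)) v := by rw [← e1]; exact hii
        have := per_inj (s := s) (v := v) (by omega) (by omega) hii'
        omega
      · have hii' : (s ^ ((i : ℕ) + q1)) v = (s ^ (i' : ℕ)) v := by rw [← e1]; exact hii
        have := per_inj (s := s) (v := v) (by omega) (by omega) hii'
        omega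
      · have hii' : (s ^ ((i : ℕ) + q1)) v = (s ^ ((i' : ℕ) + q1)) v := by
          rw [← e1, ← e1]; exact hii
        have := per_inj (s := s) (v := v) (by omega) (by omega) hii'
        have h3 : i = i' := Fin.ext (by omega)
        rw [h3]
    · intro b k
      rw [← hn]
      cases b
      · exact hφq k
      · show ((au s r : Equiv.Perm (V × Fin 3)) ^ q1) (w, (rq s r q1 v * a) k) = _
        rw [← hφq, ← Equiv.Perm.mul_apply, ← pow_add, ← hm2, hφa]
        have h3 : d1.γ (true, k) = (false, Equiv.swap 1 2 k) := by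
          revert k; decide
        rw [h3]
        rfl
    · show ι (v, a 0) = (w, (rq s r q1 v * a) 0)
      rw [hb0, hw]
    · intro b
      cases b
      · exact hvK
      · exact hwK
  · push Not at hB
    -- the period of `w`
    have hmw' : Function.minimalPeriod s w = m := by
      apply Nat.dvd_antisymm (per_dvd hmw)
      have h1 : (rq s r (Function.minimalPeriod s w) w) ^ (2 ^ N) = 1 := by
        have h2 : ∀ j : ℕ, ∀ k, ((au s r : Equiv.Perm (V × Fin 3)) ^
            (Function.minimalPeriod s w * j)) (w, k) =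
            (w, ((rq s r (Function.minimalPeriod s w) w) ^ j) k) := by
          intro j
          induction j with
          | zero => intro k; rfl
          | succ j ih =>
            intro k
            rw [Nat.mul_succ, pow_add, Equiv.Perm.mul_apply, au_pow s r _ w k, per_fix, ih, pow_succ]
            rfl
        ext k : 1
        have h3 := h2 (2 ^ N) k
        rw [mul_comm, pow_mul, hN, one_pow] at h3
        exact (Prod.mk.inj h3).2.symm
      rcases two_pow_fin3 h1 with h2 | h2
      · apply per_dvd
        have h3 : ((au s r : Equiv.Perm (V × Fin 3)) ^ (Function.minimalPeriod s w)) (w, k1) =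
            (w, k1) := by
          rw [au_pow, per_fix, h2]
          rfl
        have h4 : ((au s r : Equiv.Perm (V × Fin 3)) ^ (Function.minimalPeriod s w)) (v, a 0) =
            (v, a 0) := by
          rw [← hw', ← comm_pow h.hφ, h3]
        rw [au_pow] at h4
        exact (Prod.mk.inj h4).1
      · have h3 := hmin' w ⟨_, per_fix w, h2⟩
        have h4 := Nat.le_of_dvd hmpos (per_dvd hmw)
        have h5 : m = Function.minimalPeriod s w := le_antisymm h3 h4
        rw [← h5]
    obtain ⟨n, hn⟩ : ∃ n, m = n + 1 := ⟨m - 1, by omega⟩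
    have hve : Function.Injective (fun x : Fin (n + 1) × Bool =>
        (s ^ (x.1 : ℕ)) ((fun b => cond b w v) x.2)) := by
      have hne : ∀ i i' : ℕ, i' ≤ m → (s ^ i) v ≠ (s ^ i') w := by
        intro i i' hi' he
        apply hB (m - i' + i)
        rw [pow_add, Equiv.Perm.mul_apply, he, ← Equiv.Perm.mul_apply, ← pow_add]
        rw [Nat.sub_add_cancel hi', hmw]
      rintro ⟨i, b⟩ ⟨i', b'⟩ hii
      have hi := i.2
      have hi' := i'.2
      cases b <;> cases b'
      · have := per_inj (s := s) (v := v) (i := i) (j := i') (by omega) (by omega) hii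
        rw [Fin.ext this]
      · exact absurd hii (hne i i' (by omega))
      · exact absurd hii.symm (hne i' i (by omega))
      · have := per_inj (s := s) (v := w) (i := i) (j := i') (by omega) (by omega) hii
        rw [Fin.ext this]
    have hw2 : rq s r m w = 1 ∨ Equiv.Perm.sign (rq s r m w) = -1 := by
      apply two_pow_fin3 (N := N)
      have h2 : ∀ j : ℕ, ∀ k, ((au s r : Equiv.Perm (V × Fin 3)) ^ (m * j)) (w, k) =
          (w, ((rq s r m w) ^ j) k) := by
        intro j
        induction j with
        | zero => intro k; rfl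
        | succ j ih =>
          intro k
          rw [Nat.mul_succ, pow_add, Equiv.Perm.mul_apply, au_pow s r _ w k, hmw, ih, pow_succ]
          rfl
      ext k : 1
      have h3 := h2 (2 ^ N) k
      rw [mul_comm, pow_mul, hN, one_pow] at h3
      exact (Prod.mk.inj h3).2.symm
    by_cases hwK : w ∈ K
    · have hk0 : k1 = 0 := slot_zero hι hvK hwK hw
      have hw1 : rq s r m w = 1 := (rq_K s r h.hs h.hr m hwK).2
      have hholw : hol s (sgn r) m w = 1 := by rw [← sign_rq, hw1, map_one]
      refine red_stu (n := n) (bs := fun b => cond b w v) (aS := fun b => cond b 1 a) hι h hve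
        ?_ ?_ hvK hwK rfl ?_
      · intro b k
        rw [← hn]
        cases b
        · show ((au s r : Equiv.Perm (V × Fin 3)) ^ m) (v, a k) = _
          rw [hφa]
          have h3 : lf (false, k) = (false, Equiv.swap 1 2 k) := by
            revert k; decide
          rw [h3]
          rfl
        · show ((au s r : Equiv.Perm (V × Fin 3)) ^ m) (w, k) = _
          rw [au_pow, hmw, hw1]
          have h3 : lf (true, k) = (true, k) := by
            revert k; decide
          rw [h3]
          rfl
      · show ι (v, a 0) = (w, 0)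
        rw [hw, hk0]
      · show hol s (sgn r) (n + 1) v * hol s (sgn r) (n + 1) w = -1
        rw [← hn, hholv, hholw, mul_one]
    · have hbK : ∀ b, cond b w v ∉ K := by
        intro b
        cases b
        · exact hvK
        · exact hwK
      rcases hw2 with hw1 | hw1
      · have hholw : hol s (sgn r) m w = 1 := by rw [← sign_rq, hw1, map_one]
        refine red_ihx (n := n) (bs := fun b => cond b w v)
          (aS := fun b => cond b (Equiv.swap 0 k1) a) d3 rfl (fun j => ⟨_, _, rfl⟩) rfl
          (fun j => Or.inr rfl) rfl rfl hι h hve ?_ ?_ hbK ?_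
        · intro b k
          rw [← hn]
          cases b
          · show ((au s r : Equiv.Perm (V × Fin 3)) ^ m) (v, a k) = _
            rw [hφa]
            have h3 : d3.γ (false, k) = (false, Equiv.swap 1 2 k) := by
              revert k; decide
            rw [h3]
            rfl
          · show ((au s r : Equiv.Perm (V × Fin 3)) ^ m) (w, Equiv.swap 0 k1 k) = _
            rw [au_pow, hmw, hw1]
            have h3 : d3.γ (true, k) = (true, k) := by
              revert k; decide
            rw [h3]
            rfl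
        · show ι (v, a 0) = (w, Equiv.swap 0 k1 0)
          rw [hw, Equiv.swap_apply_left]
        · show hol s (sgn r) (n + 1) v * hol s (sgn r) (n + 1) w = -1
          rw [← hn, hholv, hholw, mul_one]
      · obtain ⟨b, hb0, hb⟩ := exists_flip_at _ k1 hw1 hk1
        have hholw : hol s (sgn r) m w = -1 := by rw [← sign_rq, hw1]
        refine red_two (n := n) (bs := fun c => cond c w v) (aS := fun c => cond c b a)
          hι h hve ?_ ?_ hbK ?_ al (by rw [← hn]; exact hmal) hvF IH
        · intro c k
          rw [← hn]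
          cases c
          · show ((au s r : Equiv.Perm (V × Fin 3)) ^ m) (v, a k) = _
            rw [hφa]
            have h3 : d2.γ (false, k) = (false, Equiv.swap 1 2 k) := by
              revert k; decide
            rw [h3]
            rfl
          · show ((au s r : Equiv.Perm (V × Fin 3)) ^ m) (w, b k) = _
            rw [au_pow, hmw, hb]
            have h3 : d2.γ (true, k) = (true, Equiv.swap 1 2 k) := by
              revert k; decide
            rw [h3]
            rfl
        · show ι (v, a 0) = (w, b 0)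
          rw [hw, hb0]
        · show hol s (sgn r) (n + 1) v * hol s (sgn r) (n + 1) w = 1
          rw [← hn, hholv, hholw]
          decide

end

theorem cl_zero (c : ℕ) : ∀ (V : Type) [Fintype V] [DecidableEq V] (ι : Equiv.Perm (V × Fin 3))
    (K : Set V) (s : Equiv.Perm V) (r : V → Equiv.Perm (Fin 3)), Val ι K → Odd' ι K s r →
    Set.ncard {x | Fl s r x} < c → cl ι K = 0 := by
  induction c with
  | zero =>
    intro V _ _ ι K s r _ _ hc
    exact absurd hc (Nat.not_lt_zero _)
  | succ c ih =>
    intro V i1 i2 ι K s r hι h hc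
    have hpos : orderOf (au s r : Equiv.Perm (V × Fin 3)) ≠ 0 := (orderOf_pos _).ne'
    obtain ⟨N, u, hu, e⟩ := Nat.exists_eq_two_pow_mul_odd hpos
    have h1 := odd_pow h hu
    apply core hι h1 N
    · rw [← au_pow_eq, ← pow_mul, mul_comm, ← e, pow_orderOf_eq_one]
    · intro V' _ _ ι' K' s' r' hι' h' hlt
      apply ih V' ι' K' s' r' hι' h'
      have h2 : Set.ncard {x | Fl (s ^ u) (rq s r u) x} ≤ Set.ncard {x | Fl s r x} :=
        Set.ncard_le_ncard (fun x hx => fl_pow hx) (Set.toFinite _)
      omega

theorem main_zero {n : ℕ} (D : Diag (Fin n)) (s : Equiv.Perm (Fin n))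
    (r : Fin n → Equiv.Perm (Fin 3)) (hK : s '' D.K = D.K) (hr : ∀ i ∈ D.K, r i = 1)
    (h : ∀ x, D.ι (au s r x) = au s r (D.ι x)) (hs : ∏ i, Equiv.Perm.sign (r i) = -1) :
    cls D = 0 := by
  rw [cls_eq]
  exact cl_zero _ (Fin n) D.ι D.K s r D.val ⟨hK, hr, cj_eq_of h, hs⟩ (Nat.lt_succ_self _)

end Pool.Agent.Helper1.OA
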