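import Pool.Agent.Helper1.OA.NF

namespace Pool.Agent.Helper1.OA

open Finset

theorem sum_zero {X B : Type} [Fintype X] [AddCommGroup B] (σ : Equiv.Perm X)
    (T : X → B) (hT : ∀ x, T (σ x) = - T x) (χ : X → ℤˣ) (hχ : ∀ x, χ (σ x) = - χ x) :
    ∑ x, T x = 0 := by
  classical
  rw [← Finset.sum_filter_add_sum_filter_not univ (fun x => χ x = 1)]
  have e : ∑ x ∈ univ.filter (fun x => ¬ χ x = 1), T x =
      ∑ x ∈ univ.filter (fun x => χ x = 1), T (σ x) := by
    symm
    refine Finset.sum_bij' (fun x _ => σ x) (fun x _ => σ.symm x) ?_ ?_ ?_ ?_ ?_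
    · intro x hx
      simp only [Finset.mem_filter, mem_univ, true_and] at hx ⊢
      rw [hχ, hx]
      decide
    · intro x hx
      simp only [Finset.mem_filter, mem_univ, true_and] at hx ⊢
      have h2 := hχ (σ.symm x)
      rw [Equiv.apply_symm_apply] at h2
      rcases Int.units_eq_one_or (χ (σ.symm x)) with h3 | h3
      · exact h3
      · exfalso
        rw [h3, neg_neg] at h2
        exact hx h2
    · intro x _; simp
    · intro x _; simp
    · intro x _; rfl
  rw [e]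
  simp only [hT]
  rw [Finset.sum_neg_distrib, add_neg_cancel]

section
variable {n : ℕ} {W : Type}

/-- the shift -/
def sh0 (σW : Equiv.Perm W) (ρW : W → Equiv.Perm (Fin 3)) : Equiv.Perm (NV (n + 1) W × Fin 3) :=
  au (Equiv.sumCongr (Equiv.prodCongr (finRotate (n + 1)) (Equiv.refl Bool)) σW)
    (Sum.elim (fun _ => 1) ρW)

theorem sh0_inl (σW : Equiv.Perm W) (ρW : W → Equiv.Perm (Fin 3)) (i : Fin (n + 1)) (b : Bool)
    (k : Fin 3) : (sh0 σW ρW) (Sum.inl (i, b), k) = (Sum.inl (finRotate (n + 1) i, b), k) := rfl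

theorem sh0_inr (σW : Equiv.Perm W) (ρW : W → Equiv.Perm (Fin 3)) (u : W)
    (k : Fin 3) : (sh0 σW ρW : Equiv.Perm (NV (n + 1) W × Fin 3)) (Sum.inr u, k) =
      (Sum.inr (σW u), ρW u k) := rfl

theorem sh0_Lp (σW : Equiv.Perm W) (ρW : W → Equiv.Perm (Fin 3))
    (lam : Fin (n + 1) → Equiv.Perm LH) :
    sh0 σW ρW * Lp lam = Lp (fun i => lam ((finRotate (n + 1)).symm i)) * sh0 σW ρW := by
  apply nv_ext
  · intro i b k
    rw [Equiv.Perm.mul_apply, Equiv.Perm.mul_apply, Lp_inl, sh0_inl, sh0_inl, Lp_inl]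
    simp only [Equiv.symm_apply_apply]
  · intro u k; rfl

/-- the induced permutation of the resolutions -/
def nf (τ : Equiv.Perm (Fin 2)) : Equiv.Perm (Fin (n + 1) → Fin 2) where
  toFun f i := (if i = 0 then τ else 1) (f ((finRotate (n + 1)).symm i))
  invFun g i := (if finRotate (n + 1) i = 0 then τ else 1).symm (g (finRotate (n + 1) i))
  left_inv f := by
    funext i
    simp
  right_inv g := by
    funext i
    simp

theorem nf_apply (τ : Equiv.Perm (Fin 2)) (f : Fin (n + 1) → Fin 2) (i : Fin (n + 1)) :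
    nf τ f i = (if i = 0 then τ else 1) (f ((finRotate (n + 1)).symm i)) := rfl

theorem prod_nf {G : Type} [CommMonoid G] (τ : Equiv.Perm (Fin 2)) (s : Fin 2 → G) (c : G)
    (hs : ∀ j, s (τ j) = s j * c) (f : Fin (n + 1) → Fin 2) :
    ∏ i, s (nf τ f i) = (∏ i, s (f i)) * c := by
  have h : ∀ i, s (nf τ f i) = s (f ((finRotate (n + 1)).symm i)) * (if i = 0 then c else 1) := by
    intro i
    rw [nf_apply]
    split_ifs with h
    · exact hs _
    · simp
  simp only [h]
  rw [Finset.prod_mul_distrib, Equiv.prod_comp (finRotate (n + 1)).symm (fun i => s (f i)),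
    Finset.prod_ite_eq']
  simp

/-- local data of a resolution -/
structure LocData where
  R : Fin 2 → Equiv.Perm LH
  ε : Fin 2 → ℤ
  γ : Equiv.Perm LH
  θ : Fin 2 → Equiv.Perm LH
  η : Fin 2 → Equiv.Perm LH
  τ : Equiv.Perm (Fin 2)
  sγ : ℤ
  main : ∀ j, η j * R j = R (τ j) * (θ j * γ)
  sign : ∀ j, ε (τ j) = ε j * sγ

theorem equi_perm (d : LocData) (σW : Equiv.Perm W) (ρW : W → Equiv.Perm (Fin 3))
    (f : Fin (n + 1) → Fin 2) :
    (Lp (sg 0 (d.η (f (Fin.last n)))) * sh0 σW ρW) * Lp (fun i => d.R (f i)) =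
      Lp (fun i => d.R (nf d.τ f i)) * (Lp (sg 0 (d.θ (f (Fin.last n)))) *
        (Lp (sg 0 d.γ) * (sh0 σW ρW : Equiv.Perm (NV (n + 1) W × Fin 3)))) := by
  have e0 : (finRotate (n + 1)).symm 0 = Fin.last n := by
    rw [Equiv.symm_apply_eq, finRotate_last]
  have e : (sg 0 (d.η (f (Fin.last n))) * fun i => d.R (f ((finRotate (n + 1)).symm i))) =
      ((fun i => d.R (nf d.τ f i)) * (sg 0 (d.θ (f (Fin.last n))) * sg 0 d.γ) :
        Fin (n + 1) → Equiv.Perm LH) := by
    funext i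
    rw [Pi.mul_apply, Pi.mul_apply, Pi.mul_apply]
    simp only [sg, nf_apply]
    by_cases hi : i = 0
    · subst hi
      rw [if_pos rfl, if_pos rfl, if_pos rfl, if_pos rfl, e0]
      exact d.main _
    · rw [if_neg hi, if_neg hi, if_neg hi, if_neg hi]
      simp
  rw [mul_assoc, sh0_Lp, ← mul_assoc, ← Lp_mul, e, Lp_mul, Lp_mul]
  group

theorem equi (d : LocData) (σW : Equiv.Perm W) (ρW : W → Equiv.Perm (Fin 3))
    {ι : Equiv.Perm (NV (n + 1) W × Fin 3)}
    (hφ : cj (Lp (sg 0 d.γ) * sh0 σW ρW) ι = ι)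
    (hθ : ∀ j, cj (Lp (sg 0 (d.θ j))) ι = ι) (f : Fin (n + 1) → Fin 2) :
    cj (Lp (sg 0 (d.η (f (Fin.last n)))) * sh0 σW ρW) (cj (Lp fun i => d.R (f i)) ι) =
      cj (Lp fun i => d.R (nf d.τ f i)) ι := by
  rw [← cj_mul, equi_perm, cj_mul, cj_mul, hφ, hθ]

theorem theta_fix {ι : Equiv.Perm (NV (n + 1) W × Fin 3)} (hinv : ∀ x, ι (ι x) = x)
    (i : Fin (n + 1)) (he : ι (Sum.inl (i, false), 0) = (Sum.inl (i, true), 0)) :
    cj (Lp (sg i (Equiv.swap (false, 0) (true, 0)))) ι = ι := by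
  classical
  have hp : Function.Injective (fun b => (Sum.inl (i, b) : NV (n + 1) W)) := by
    intro b b' h
    simpa using h
  have e : (Lp (sg i (Equiv.swap (false, 0) (true, 0))) : Equiv.Perm (NV (n + 1) W × Fin 3)) =
      Equiv.swap (Sum.inl (i, false), 0) (Sum.inl (i, true), 0) :=
    (loc_sg i _).ext hp (loc_swap hp false 0 true 0) rfl
  rw [e]
  apply cj_eq_of
  intro x
  have he' : ι (Sum.inl (i, true), 0) = (Sum.inl (i, false), 0) := by rw [← he, hinv]
  have := ι.injective.swap_apply (Sum.inl (i, false), 0) (Sum.inl (i, true), 0) x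
  rw [he, he'] at this
  rw [← this, Equiv.swap_comm]

end

end Pool.Agent.Helper1.OA
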