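import Pool.Agent.Helper1.OA.Two

namespace Pool.Agent.Helper1.OA

open Finset

theorem exists_flip : ∀ g : Equiv.Perm (Fin 3), Equiv.Perm.sign g = -1 →
    ∃ a : Equiv.Perm (Fin 3), ∀ k, g (a k) = a (Equiv.swap 1 2 k) := by decide

theorem exists_flip_at : ∀ (g : Equiv.Perm (Fin 3)) (k1 : Fin 3), Equiv.Perm.sign g = -1 →
    g k1 = k1 → ∃ b : Equiv.Perm (Fin 3), b 0 = k1 ∧ ∀ k, g (b k) = b (Equiv.swap 1 2 k) := by
  decide

theorem even_cube : ∀ g : Equiv.Perm (Fin 3), Equiv.Perm.sign g = 1 → g ^ 3 = 1 := by decide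

theorem swap_fix : ∀ k : Fin 3, Equiv.swap (1 : Fin 3) 2 k = k → k = 0 := by decide

theorem two_pow_fin3 {g : Equiv.Perm (Fin 3)} {N : ℕ} (h : g ^ (2 ^ N) = 1) :
    g = 1 ∨ Equiv.Perm.sign g = -1 := by
  rcases Int.units_eq_one_or (Equiv.Perm.sign g) with h1 | h1
  · left
    have h2 := even_cube g h1
    have h3 : orderOf g ∣ 3 := orderOf_dvd_of_pow_eq_one h2
    have h4 : orderOf g ∣ 2 ^ N := orderOf_dvd_of_pow_eq_one h
    have h5 : Nat.Coprime 3 (2 ^ N) := by
      apply Nat.Coprime.pow_right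
      decide
    have h6 : orderOf g ∣ 1 := by
      have := Nat.dvd_gcd h3 h4
      rwa [h5] at this
    rw [← orderOf_eq_one_iff]
    exact Nat.dvd_one.1 h6
  · exact Or.inr h1

theorem exists_fl {V : Type} [Fintype V] (s : Equiv.Perm V) (r : V → Equiv.Perm (Fin 3))
    (h : ∏ i, sgn r i = -1) : ∃ v, Fl s r v := by
  by_contra hno
  push Not at hno
  obtain ⟨u, hu⟩ := exists_cob s (sgn r) (by
    intro x q hq
    rcases Int.units_eq_one_or (hol s (sgn r) q x) with h1 | h1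
    · exact h1
    · exact absurd ⟨q, hq, by rw [sign_rq, h1]⟩ (hno x))
  rw [prod_cob s (sgn r) hu] at h
  exact absurd h (by decide)

section
variable {V : Type} {s : Equiv.Perm V} {r : V → Equiv.Perm (Fin 3)}

theorem per_fix (v : V) : (s ^ (Function.minimalPeriod s v)) v = v := by
  rw [← Equiv.Perm.iterate_eq_pow]
  exact Function.iterate_minimalPeriod

theorem per_dvd {v : V} {q : ℕ} (h : (s ^ q) v = v) : Function.minimalPeriod s v ∣ q := by
  apply Function.IsPeriodicPt.minimalPeriod_dvd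
  rw [Function.IsPeriodicPt, Function.IsFixedPt, Equiv.Perm.iterate_eq_pow]
  exact h

theorem per_inj {v : V} {i j : ℕ} (hi : i < Function.minimalPeriod s v)
    (hj : j < Function.minimalPeriod s v) (h : (s ^ i) v = (s ^ j) v) : i = j := by
  apply Function.iterate_injOn_Iio_minimalPeriod (f := s) (x := v) hi hj
  simp only [Equiv.Perm.iterate_eq_pow]
  exact h

theorem fl_sign {v : V} (h : Fl s r v) :
    Equiv.Perm.sign (rq s r (Function.minimalPeriod s v) v) = -1 := by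
  obtain ⟨q, hq, hsq⟩ := h
  obtain ⟨a, rfl⟩ := per_dvd hq
  rw [sign_rq, hol_mul _ _ _ _ (per_fix v)] at hsq
  rw [sign_rq]
  rcases Int.units_eq_one_or (hol s (sgn r) (Function.minimalPeriod s v) v) with h1 | h1
  · rw [h1, one_pow] at hsq
    exact absurd hsq (by decide)
  · exact h1

theorem au_pow_eq (u : ℕ) : (au s r : Equiv.Perm (V × Fin 3)) ^ u = au (s ^ u) (rq s r u) := by
  ext x : 1
  rcases x with ⟨i, k⟩
  rw [au_pow, au_apply]

theorem fl_pow {u : ℕ} {i : V} (h : Fl (s ^ u) (rq s r u) i) : Fl s r i := by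
  obtain ⟨q, hq, hsq⟩ := h
  have h1 : ∀ k, ((((s ^ u) ^ q) i, rq (s ^ u) (rq s r u) q i k) : V × Fin 3) =
      ((s ^ (u * q)) i, rq s r (u * q) i k) := by
    intro k
    rw [← au_pow, ← au_pow, ← au_pow_eq, ← pow_mul]
  refine ⟨u * q, ?_, ?_⟩
  · have := (Prod.mk.inj (h1 0)).1
    rw [← this]; exact hq
  · have : rq (s ^ u) (rq s r u) q i = rq s r (u * q) i := by
      ext k : 1
      exact (Prod.mk.inj (h1 k)).2
    rw [← this]; exact hsq

theorem prod_hol [Fintype V] (c : V → ℤˣ) (u : ℕ) : ∏ i, hol s c u i = (∏ i, c i) ^ u := by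
  induction u with
  | zero => simp [hol_zero]
  | succ u ih =>
    simp only [hol_succ]
    rw [Finset.prod_mul_distrib, ih, Equiv.prod_comp (s ^ u) c, pow_succ]

theorem odd_pow [Fintype V] {ι : Equiv.Perm (V × Fin 3)} {K : Set V} (h : Odd' ι K s r)
    {u : ℕ} (hu : Odd u) : Odd' ι K (s ^ u) (rq s r u) := by
  refine ⟨?_, ?_, ?_, ?_⟩
  · ext x
    constructor
    · rintro ⟨y, hy, rfl⟩
      exact (K_pow s h.hs u).2 hy
    · intro hx
      refine ⟨(s ^ u).symm x, ?_, by simp⟩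
      rw [← K_pow s h.hs u]
      simpa using hx
  · intro i hi
    exact (rq_K s r h.hs h.hr u hi).2
  · rw [← au_pow_eq]
    apply cj_eq_of
    intro x
    exact comm_pow h.hφ u x
  · have : ∀ i, sgn (rq s r u) i = hol s (sgn r) u i := fun i => sign_rq s r u i
    simp only [this]
    rw [prod_hol, h.sign, hu.neg_one_pow]

end

section
variable {V : Type} [Fintype V] [DecidableEq V] {s : Equiv.Perm V} {r : V → Equiv.Perm (Fin 3)}
  {ι : Equiv.Perm (V × Fin 3)} {K : Set V} {n : ℕ} {bs : Bool → V}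
  {aS : Bool → Equiv.Perm (Fin 3)}

theorem image_K' {W : Type} {K' : Set (NV (n + 1) W)} {em : W → V} {σW : Equiv.Perm W}
    (hs : s '' K = K) (hσ : ∀ u, em (σW u) = s (em u)) (h1 : ∀ u, Sum.inr u ∈ K' ↔ em u ∈ K)
    (h2 : ∀ i b, Sum.inl (i, b) ∈ K' ↔ bs b ∈ K) :
    (Equiv.sumCongr (Equiv.prodCongr (finRotate (n + 1)) (Equiv.refl Bool)) σW) '' K' = K' := by
  have h3 : ∀ u, em (σW u) ∈ K ↔ em u ∈ K := by
    intro u
    have := K_pow s hs 1 (i := em u)
    rw [pow_one] at this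
    rw [hσ]; exact this
  ext x
  constructor
  · rintro ⟨y, hy, rfl⟩
    rcases y with ⟨i, b⟩ | u
    · exact (h2 _ _).2 ((h2 _ _).1 hy)
    · exact (h1 _).2 ((h3 u).2 ((h1 u).1 hy))
  · intro hx
    rcases x with ⟨i, b⟩ | u
    · refine ⟨Sum.inl ((finRotate (n + 1)).symm i, b), (h2 _ _).2 ((h2 _ _).1 hx), ?_⟩
      simp
    · refine ⟨Sum.inr (σW.symm u), (h1 _).2 ((h3 _).1 ?_), ?_⟩
      · rw [Equiv.apply_symm_apply]
        exact (h1 u).1 hx
      · simp

theorem red_ihx (d : LocData) (hR : d.R = ![lk, ls])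
    (hη : ∀ j, ∃ β r, d.η j = Equiv.prodCongr β r) (hε : d.ε = ![-1, 1])
    (hθ1 : ∀ j, d.θ j = 1 ∨ d.θ j = lsw) (hτ : d.τ = Equiv.swap 0 1) (hsγ : d.sγ = -1)
    (hι : Val ι K) (h : Odd' ι K s r)
    (hve : Function.Injective (fun x : Fin (n + 1) × Bool => (s ^ (x.1 : ℕ)) (bs x.2)))
    (hmono : ∀ b k, ((au s r : Equiv.Perm (V × Fin 3)) ^ (n + 1)) (bs b, aS b k) =
      (bs (d.γ (b, k)).1, aS (d.γ (b, k)).1 (d.γ (b, k)).2))
    (hedge : ι (bs false, aS false 0) = (bs true, aS true 0))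
    (hbK : ∀ b, bs b ∉ K)
    (hsg : hol s (sgn r) (n + 1) (bs false) * hol s (sgn r) (n + 1) (bs true) = -1) :
    cl ι K = 0 := by
  obtain ⟨W, i1, i2, em, σW, ι', K', -, h2, -, h4, h5, h6, h7, h8, h9, h10⟩ :=
    reduce s r hι h.hs h.hr h.hφ h.sign n bs aS d.γ hve hmono hedge
      (fun b hb => absurd hb (hbK b))
  apply h9
  rw [hsg] at h10
  have h11 : sgW (fun u => r (em u)) = 1 := by
    rw [mul_neg_one, neg_inj] at h10
    exact h10
  refine ihx_zero d hR hη hε hθ1 hτ (fun i b hb => hbK b ((h5 i b).1 hb)) σW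
    (fun u => r (em u)) (image_K' h.hs h2 h4 h5) (fun u hu => h.hr _ ((h4 u).1 hu)) h6 h7 h8 ?_
  rw [h11, hsγ]
  rfl

theorem red_stu (hι : Val ι K) (h : Odd' ι K s r)
    (hve : Function.Injective (fun x : Fin (n + 1) × Bool => (s ^ (x.1 : ℕ)) (bs x.2)))
    (hmono : ∀ b k, ((au s r : Equiv.Perm (V × Fin 3)) ^ (n + 1)) (bs b, aS b k) =
      (bs (lf (b, k)).1, aS (lf (b, k)).1 (lf (b, k)).2))
    (hedge : ι (bs false, aS false 0) = (bs true, aS true 0))
    (hf : bs false ∉ K) (ht : bs true ∈ K) (ha : aS true = 1)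
    (hsg : hol s (sgn r) (n + 1) (bs false) * hol s (sgn r) (n + 1) (bs true) = -1) :
    cl ι K = 0 := by
  obtain ⟨W, i1, i2, em, σW, ι', K', -, h2, -, h4, h5, h6, h7, h8, h9, h10⟩ :=
    reduce s r hι h.hs h.hr h.hφ h.sign n bs aS lf hve hmono hedge
      (fun b hb => by
        cases b
        · exact absurd hb hf
        · exact ha)
  apply h9
  rw [hsg] at h10
  have h11 : sgW (fun u => r (em u)) = 1 := by
    rw [mul_neg_one, neg_inj] at h10
    exact h10
  have hKK : K' = KS {u | em u ∈ K} 0 := by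
    ext x
    constructor
    · intro hx
      rcases x with ⟨i, b⟩ | u
      · cases b
        · exact absurd ((h5 i false).1 hx) hf
        · exact Or.inl ⟨i, rfl⟩
      · exact Or.inr (Or.inr ⟨u, (h4 u).1 hx, rfl⟩)
    · rintro (⟨i, rfl⟩ | ⟨i, hi, rfl⟩ | ⟨u, hu, rfl⟩)
      · exact (h5 i true).2 ht
      · exact absurd hi (Nat.not_lt_zero _)
      · exact (h4 u).2 hu
  rw [hKK] at h6 ⊢
  refine stu_zero σW (fun u => r (em u)) ?_ (fun u hu => h.hr _ hu) h6 h7 h8 (by rw [h11]; rfl)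
  have h3 : ∀ u, em (σW u) ∈ K ↔ em u ∈ K := by
    intro u
    have := K_pow s h.hs 1 (i := em u)
    rw [pow_one] at this
    rw [h2]; exact this
  ext u
  constructor
  · rintro ⟨u', hu', rfl⟩
    exact (h3 u').2 hu'
  · intro hu
    refine ⟨σW.symm u, ?_, by simp⟩
    show em (σW.symm u) ∈ K
    rw [← h3, Equiv.apply_symm_apply]
    exact hu

theorem red_two (hι : Val ι K) (h : Odd' ι K s r)
    (hve : Function.Injective (fun x : Fin (n + 1) × Bool => (s ^ (x.1 : ℕ)) (bs x.2)))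
    (hmono : ∀ b k, ((au s r : Equiv.Perm (V × Fin 3)) ^ (n + 1)) (bs b, aS b k) =
      (bs (d2.γ (b, k)).1, aS (d2.γ (b, k)).1 (d2.γ (b, k)).2))
    (hedge : ι (bs false, aS false 0) = (bs true, aS true 0))
    (hbK : ∀ b, bs b ∉ K)
    (hsg : hol s (sgn r) (n + 1) (bs false) * hol s (sgn r) (n + 1) (bs true) = 1)
    (a : ℕ) (ha : n + 1 = 2 ^ a) (hv : Fl s r (bs false))
    (IH : ∀ (V' : Type) [Fintype V'] [DecidableEq V'] (ι' : Equiv.Perm (V' × Fin 3))
      (K' : Set V') (s' : Equiv.Perm V') (r' : V' → Equiv.Perm (Fin 3)), Val ι' K' →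
      Odd' ι' K' s' r' → Set.ncard {x | Fl s' r' x} < Set.ncard {x | Fl s r x} → cl ι' K' = 0) :
    cl ι K = 0 := by
  obtain ⟨W, i1, i2, em, σW, ι', K', h1, h2, h3, h4, h5, h6, h7, h8, h9, h10⟩ :=
    reduce s r hι h.hs h.hr h.hφ h.sign n bs aS d2.γ hve hmono hedge
      (fun b hb => absurd hb (hbK b))
  apply h9
  rw [hsg, mul_one] at h10
  have hK' : ∀ i b, Sum.inl (i, b) ∉ K' := fun i b hb => hbK b ((h5 i b).1 hb)
  have hKs := image_K' h.hs h2 h4 h5
  have hr' : ∀ u, Sum.inr u ∈ K' → r (em u) = 1 := fun u hu => h.hr _ ((h4 u).1 hu)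
  refine ihx_two hK' σW (fun u => r (em u)) hKs hr' h6 h7 h8 (by rw [h10]; rfl) a ha ?_
  intro j
  apply IH _ _ _ (s2 σW) (r2 fun u => r (em u)) ((ihx_expand hK' h6 h7).1 fun _ => j)
  · refine ⟨?_, ?_, const_aut h6.invol h7 h8 j, ?_⟩
    · ext x
      constructor
      · rintro ⟨y, hy, rfl⟩
        rcases y with ⟨i, b⟩ | u
        · exact absurd hy (hK' i b)
        · have : (Equiv.sumCongr (Equiv.prodCongr (finRotate (n + 1)) (Equiv.refl Bool)) σW)
              (Sum.inr u) ∈ K' := by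
            rw [← hKs]
            exact ⟨_, hy, rfl⟩
          exact this
      · intro hx
        have hx' := hx
        rw [← hKs] at hx'
        obtain ⟨y, hy, e⟩ := hx'
        refine ⟨y, hy, ?_⟩
        rcases y with ⟨i, b⟩ | u
        · exact absurd hy (hK' i b)
        · exact e
    · rintro (⟨i, b⟩ | u) hx
      · rfl
      · exact hr' u hx
    · rw [← h10, Fintype.prod_sum_type]
      have : ∀ x : Fin (n + 1) × Bool, sgn (r2 fun u => r (em u)) (Sum.inl x : NV (n + 1) W) = 1 :=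
        fun x => Equiv.Perm.sign_one
      simp only [this]
      rw [Finset.prod_const_one, one_mul]
      rfl
  · have hlt : Set.ncard ({x | Fl s r x} \ {bs false}) < Set.ncard {x | Fl s r x} :=
      Set.ncard_diff_singleton_lt_of_mem hv (Set.toFinite _)
    refine lt_of_le_of_lt ?_ hlt
    apply Set.ncard_le_ncard_of_injOn (Sum.elim (fun _ => bs false) em)
    · intro x hx
      obtain ⟨u, rfl, hu⟩ := fl2 h2 hx
      exact ⟨hu, h3 u 0 false⟩
    · intro x hx y hy hxy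
      obtain ⟨u, rfl, hu⟩ := fl2 h2 hx
      obtain ⟨u', rfl, hu'⟩ := fl2 h2 hy
      exact congrArg _ (h1 hxy)

end

end Pool.Agent.Helper1.OA
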