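import Pool.Agent.Helper1.OA.Sgn
import Pool.Agent.Helper1.OA.Cob

namespace Pool.Agent.Helper1.OA

open Finset

section
variable {M : ℕ} {W : Type}

/-- vertices in normal form -/
abbrev NV (M : ℕ) (W : Type) : Type := (Fin M × Bool) ⊕ W

/-- local permutations at all pairs -/
def Lp (lam : Fin M → Equiv.Perm LH) : Equiv.Perm (NV M W × Fin 3) where
  toFun
    | (Sum.inl (i, b), k) => (Sum.inl (i, (lam i (b, k)).1), (lam i (b, k)).2)
    | (Sum.inr u, k) => (Sum.inr u, k)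
  invFun
    | (Sum.inl (i, b), k) => (Sum.inl (i, ((lam i).symm (b, k)).1), ((lam i).symm (b, k)).2)
    | (Sum.inr u, k) => (Sum.inr u, k)
  left_inv := by
    rintro ⟨⟨i, b⟩ | u, k⟩ <;> simp
  right_inv := by
    rintro ⟨⟨i, b⟩ | u, k⟩ <;> simp

theorem Lp_inl (lam : Fin M → Equiv.Perm LH) (i : Fin M) (b : Bool) (k : Fin 3) :
    (Lp lam : Equiv.Perm (NV M W × Fin 3)) (Sum.inl (i, b), k) =
      (Sum.inl (i, (lam i (b, k)).1), (lam i (b, k)).2) := rfl

theorem Lp_inr (lam : Fin M → Equiv.Perm LH) (u : W) (k : Fin 3) :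
    (Lp lam : Equiv.Perm (NV M W × Fin 3)) (Sum.inr u, k) = (Sum.inr u, k) := rfl

theorem nv_ext {g g' : Equiv.Perm (NV M W × Fin 3)}
    (h1 : ∀ i b k, g (Sum.inl (i, b), k) = g' (Sum.inl (i, b), k))
    (h2 : ∀ u k, g (Sum.inr u, k) = g' (Sum.inr u, k)) : g = g' := by
  ext x : 1
  rcases x with ⟨⟨i, b⟩ | u, k⟩
  · exact h1 i b k
  · exact h2 u k

theorem Lp_mul (lam mu : Fin M → Equiv.Perm LH) :
    (Lp (lam * mu) : Equiv.Perm (NV M W × Fin 3)) = Lp lam * Lp mu := by
  apply nv_ext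
  · intro i b k; rfl
  · intro u k; rfl

theorem Lp_one : (Lp 1 : Equiv.Perm (NV M W × Fin 3)) = 1 := by
  apply nv_ext
  · intro i b k; rfl
  · intro u k; rfl

/-- one local permutation -/
def sg (i : Fin M) (R : Equiv.Perm LH) : Fin M → Equiv.Perm LH :=
  fun j => if j = i then R else 1

theorem sg_mul (i : Fin M) (R R' : Equiv.Perm LH) : sg i (R * R') = sg i R * sg i R' := by
  funext j
  unfold sg
  rw [Pi.mul_apply]
  split_ifs <;> simp

theorem loc_sg (i : Fin M) (R : Equiv.Perm LH) :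
    Loc (fun b => (Sum.inl (i, b) : NV M W)) R (Lp (sg i R)) := by
  constructor
  · intro b k
    rw [Lp_inl]
    simp [sg]
  · rintro (⟨j, b⟩ | u) hu k
    · have hj : j ≠ i := by
        rintro rfl
        exact hu b rfl
      rw [Lp_inl]
      simp [sg, hj]
    · rfl

/-- the first `p` pairs are resolved by `f` -/
def lamp (R : Fin 2 → Equiv.Perm LH) (p : ℕ) (f : Fin p → Fin 2) : Fin M → Equiv.Perm LH :=
  fun i => if h : (i : ℕ) < p then R (f ⟨i, h⟩) else 1

theorem lamp_snoc (R : Fin 2 → Equiv.Perm LH) (p : ℕ) (hp : p < M) (f : Fin p → Fin 2)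
    (j : Fin 2) : (lamp R (p + 1) (Fin.snoc f j : Fin (p + 1) → Fin 2) : Fin M → Equiv.Perm LH) =
      sg ⟨p, hp⟩ (R j) * lamp R p f := by
  funext i
  rw [Pi.mul_apply]
  unfold lamp sg
  rcases Nat.lt_trichotomy (i : ℕ) p with h | h | h
  · have h1 : (i : ℕ) < p + 1 := by omega
    have h2 : i ≠ ⟨p, hp⟩ := by intro e; rw [e] at h; simp at h
    rw [dif_pos h1, if_neg h2, dif_pos h, one_mul]
    congr 1
    have e : (⟨(i : ℕ), h1⟩ : Fin (p + 1)) = Fin.castSucc ⟨(i : ℕ), h⟩ := rfl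
    rw [e, Fin.snoc_castSucc (α := fun _ => Fin 2)]
  · have h1 : (i : ℕ) < p + 1 := by omega
    have h2 : i = ⟨p, hp⟩ := Fin.ext h
    have h3 : ¬ (i : ℕ) < p := by omega
    rw [dif_pos h1, if_pos h2, dif_neg h3, mul_one]
    congr 1
    have e : (⟨(i : ℕ), h1⟩ : Fin (p + 1)) = Fin.last p := Fin.ext h
    rw [e, Fin.snoc_last (α := fun _ => Fin 2)]
  · have h1 : ¬ (i : ℕ) < p + 1 := by omega
    have h2 : i ≠ ⟨p, hp⟩ := by intro e; rw [e] at h; simp at h
    have h3 : ¬ (i : ℕ) < p := by omega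
    rw [dif_neg h1, if_neg h2, dif_neg h3, one_mul]

theorem lamp_full (R : Fin 2 → Equiv.Perm LH) (f : Fin M → Fin 2) :
    (lamp R M f : Fin M → Equiv.Perm LH) = fun i => R (f i) := by
  funext i
  unfold lamp
  rw [dif_pos i.2]

/-- Simultaneous resolution. -/
theorem expand [Finite W] (R : Fin 2 → Equiv.Perm LH) (ε : Fin 2 → ℤ) (Kf : ℕ → Set (NV M W))
    (hstep : ∀ (i : Fin M) (ι : Equiv.Perm (NV M W × Fin 3)), Val ι (Kf i) →
      ι (Sum.inl (i, false), 0) = (Sum.inl (i, true), 0) →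
      (∀ j, Val (cj (Lp (sg i (R j))) ι) (Kf (i + 1))) ∧
        cl ι (Kf i) = ∑ j, ε j • cl (cj (Lp (sg i (R j))) ι) (Kf (i + 1)))
    {ι : Equiv.Perm (NV M W × Fin 3)} (hι : Val ι (Kf 0))
    (he : ∀ i : Fin M, ι (Sum.inl (i, false), 0) = (Sum.inl (i, true), 0)) :
    (∀ f : Fin M → Fin 2, Val (cj (Lp fun i => R (f i)) ι) (Kf M)) ∧
      cl ι (Kf 0) = ∑ f : Fin M → Fin 2, (∏ i, ε (f i)) • cl (cj (Lp fun i => R (f i)) ι) (Kf M) := by
  have main : ∀ p ≤ M, (∀ f : Fin p → Fin 2, Val (cj (Lp (lamp R p f)) ι) (Kf p)) ∧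
      cl ι (Kf 0) = ∑ f : Fin p → Fin 2, (∏ i, ε (f i)) • cl (cj (Lp (lamp R p f)) ι) (Kf p) := by
    intro p
    induction p with
    | zero =>
      intro _
      have e : ∀ f : Fin 0 → Fin 2, (lamp R 0 f : Fin M → Equiv.Perm LH) = 1 := by
        intro f
        funext i
        unfold lamp
        rw [dif_neg (Nat.not_lt_zero _)]
        rfl
      constructor
      · intro f
        rw [e f, Lp_one, cj_one]
        exact hι
      · simp [e, Lp_one, cj_one]
    | succ p ih =>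
      intro hp
      obtain ⟨ih1, ih2⟩ := ih (by omega)
      have st : ∀ f : Fin p → Fin 2,
          (∀ j, Val (cj (Lp (sg ⟨p, hp⟩ (R j))) (cj (Lp (lamp R p f)) ι)) (Kf (p + 1))) ∧
          cl (cj (Lp (lamp R p f)) ι) (Kf p) =
            ∑ j, ε j • cl (cj (Lp (sg ⟨p, hp⟩ (R j))) (cj (Lp (lamp R p f)) ι)) (Kf (p + 1)) := by
        intro f
        apply hstep ⟨p, hp⟩ _ (ih1 f)
        have h1 := cj_apply (Lp (lamp R p f)) ι (Sum.inl (⟨p, hp⟩, false), 0)
        have h2 : (lamp R p f : Fin M → Equiv.Perm LH) ⟨p, hp⟩ = 1 := by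
          unfold lamp
          rw [dif_neg (by simp)]
        rw [he, Lp_inl, Lp_inl, h2] at h1
        exact h1
      have e : ∀ (f : Fin p → Fin 2) (j : Fin 2),
          cj (Lp (lamp R (p + 1) (Fin.snoc f j : Fin (p + 1) → Fin 2))) ι =
          cj (Lp (sg ⟨p, hp⟩ (R j))) (cj (Lp (lamp R p f)) ι) := by
        intro f j
        rw [lamp_snoc R p hp, Lp_mul, cj_mul]
      constructor
      · intro f
        have hf : f = (Fin.snoc (fun i : Fin p => f i.castSucc) (f (Fin.last p)) :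
            Fin (p + 1) → Fin 2) := by
          rw [← Fin.snoc_init_self (α := fun _ => Fin 2) f]
          simp
        rw [hf, e]
        exact (st _).1 _
      · rw [ih2, ← (Fin.snocEquiv (fun _ : Fin (p + 1) => Fin 2)).sum_comp,
          Fintype.sum_prod_type_right]
        refine Finset.sum_congr rfl fun f _ => ?_
        rw [(st f).2, Finset.smul_sum]
        refine Finset.sum_congr rfl fun j _ => ?_
        have h1 : (Fin.snocEquiv (fun _ : Fin (p + 1) => Fin 2)) (j, f) =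
            (Fin.snoc f j : Fin (p + 1) → Fin 2) := rfl
        rw [h1, e, Fin.prod_univ_castSucc, smul_smul]
        simp only [Fin.snoc_castSucc (α := fun _ => Fin 2), Fin.snoc_last (α := fun _ => Fin 2)]
  obtain ⟨h1, h2⟩ := main M le_rfl
  constructor
  · intro f
    have := h1 f
    rw [lamp_full] at this
    exact this
  · rw [h2]
    refine Finset.sum_congr rfl fun f _ => ?_
    rw [lamp_full]

end

end Pool.Agent.Helper1.OA
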