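import Pool.Agent.Helper1.OA.Equi

namespace Pool.Agent.Helper1.OA

open Finset

section
variable {n : ℕ} {W : Type}

/-- the exchange of the two half-edges of the edge -/
def lsw : Equiv.Perm LH := Equiv.swap (false, 0) (true, 0)

/-- the exchange of the two vertices -/
def bnot : Equiv.Perm Bool := Equiv.swap false true

/-- both vertices are fixed, the first one is flipped (IHX) -/
def d3 : LocData where
  R := ![lk, ls]
  ε := ![-1, 1]
  γ := lf
  θ := fun _ => lsw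
  η := fun _ => Equiv.prodCongr bnot (1 : Equiv.Perm (Fin 3))
  τ := Equiv.swap 0 1
  sγ := -1
  main := by decide
  sign := by decide

/-- both vertices are flipped (IHX) -/
def d2 : LocData where
  R := ![lk, ls]
  ε := ![-1, 1]
  γ := lf * Equiv.swap (true, 1) (true, 2)
  θ := fun _ => lsw
  η := fun _ => Equiv.prodCongr bnot (1 : Equiv.Perm (Fin 3))
  τ := 1
  sγ := 1
  main := by decide
  sign := by decide

/-- the edge is reversed (IHX) -/
def d1 : LocData where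
  R := ![lk, ls]
  ε := ![-1, 1]
  γ := lf * Equiv.prodCongr bnot (1 : Equiv.Perm (Fin 3))
  θ := ![lsw, 1]
  η := ![Equiv.prodCongr (1 : Equiv.Perm Bool) (Equiv.swap 1 2 : Equiv.Perm (Fin 3)),
    Equiv.prodCongr bnot (Equiv.swap 1 2 : Equiv.Perm (Fin 3))]
  τ := Equiv.swap 0 1
  sγ := -1
  main := by decide
  sign := by decide

/-- STU -/
def dS : LocData where
  R := ![lm, lm * lf]
  ε := ![1, -1]
  γ := lf
  θ := fun _ => 1
  η := fun _ => 1
  τ := Equiv.swap 0 1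
  sγ := -1
  main := by decide
  sign := by decide

/-- sign of the part outside the orbit -/
def sgW [Fintype W] (ρW : W → Equiv.Perm (Fin 3)) : ℤˣ := ∏ u, Equiv.Perm.sign (ρW u)

theorem cl_sh0 [Fintype W] [DecidableEq W] (σW : Equiv.Perm W) (ρW : W → Equiv.Perm (Fin 3))
    {K : Set (NV (n + 1) W)}
    (hK : (Equiv.sumCongr (Equiv.prodCongr (finRotate (n + 1)) (Equiv.refl Bool)) σW) '' K = K)
    (hr : ∀ u, Sum.inr u ∈ K → ρW u = 1) {ι : Equiv.Perm (NV (n + 1) W × Fin 3)}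
    (hι : Val ι K) : Val (cj (sh0 σW ρW) ι) K ∧
      cl (cj (sh0 σW ρW) ι) K = (sgW ρW : ℤ) • cl ι K := by
  have hr' : ∀ v ∈ K, (Sum.elim (fun _ => 1) ρW : NV (n + 1) W → Equiv.Perm (Fin 3)) v = 1 := by
    rintro (⟨i, b⟩ | u) hv
    · rfl
    · exact hr u hv
  have h1 := hι.au (Equiv.sumCongr (Equiv.prodCongr (finRotate (n + 1)) (Equiv.refl Bool)) σW)
    (Sum.elim (fun _ => 1) ρW) hr'
  have h2 := cl_au hι (Equiv.sumCongr (Equiv.prodCongr (finRotate (n + 1)) (Equiv.refl Bool)) σW)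
    (Sum.elim (fun _ => 1) ρW) hr'
  rw [hK] at h1 h2
  refine ⟨h1, ?_⟩
  have h3 : (∏ i, Equiv.Perm.sign ((Sum.elim (fun _ => 1) ρW :
      NV (n + 1) W → Equiv.Perm (Fin 3)) i)) = sgW ρW := by
    rw [Fintype.prod_sum_type]
    simp [sgW]
  rw [h3] at h2
  exact h2

/-- vertex permutation of `η` -/
def s1 (β : Equiv.Perm Bool) : Equiv.Perm (NV (n + 1) W) where
  toFun
    | Sum.inl (i, b) => Sum.inl (i, if i = 0 then β b else b)
    | Sum.inr u => Sum.inr u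
  invFun
    | Sum.inl (i, b) => Sum.inl (i, if i = 0 then β.symm b else b)
    | Sum.inr u => Sum.inr u
  left_inv := by
    rintro (⟨i, b⟩ | u)
    · by_cases h : i = 0 <;> simp [h]
    · rfl
  right_inv := by
    rintro (⟨i, b⟩ | u)
    · by_cases h : i = 0 <;> simp [h]
    · rfl

/-- slot permutation of `η` -/
def r1 (r : Equiv.Perm (Fin 3)) : NV (n + 1) W → Equiv.Perm (Fin 3)
  | Sum.inl (i, _) => if i = 0 then r else 1
  | Sum.inr _ => 1

theorem Lp_eta (β : Equiv.Perm Bool) (r : Equiv.Perm (Fin 3)) :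
    (Lp (sg 0 (Equiv.prodCongr β r)) : Equiv.Perm (NV (n + 1) W × Fin 3)) =
      au (s1 β) (r1 r) := by
  apply nv_ext
  · intro i b k
    rw [Lp_inl, au_apply]
    by_cases h : i = 0
    · subst h; simp [sg, s1, r1]
    · simp [sg, s1, r1, h]
  · intro u k; rfl

theorem cl_eta [Fintype W] [DecidableEq W] (β : Equiv.Perm Bool) (r : Equiv.Perm (Fin 3))
    {K : Set (NV (n + 1) W)} (hK : ∀ i b, Sum.inl (i, b) ∉ K)
    {ι : Equiv.Perm (NV (n + 1) W × Fin 3)}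
    (hι : Val ι K) : Val (cj (Lp (sg 0 (Equiv.prodCongr β r))) ι) K ∧
      cl (cj (Lp (sg 0 (Equiv.prodCongr β r))) ι) K = cl ι K := by
  have hr' : ∀ v ∈ K, (r1 r : NV (n + 1) W → Equiv.Perm (Fin 3)) v = 1 := by
    rintro (⟨i, b⟩ | u) hv
    · exact absurd hv (hK i b)
    · rfl
  have hs : (s1 β : Equiv.Perm (NV (n + 1) W)) '' K = K := by
    ext v
    constructor
    · rintro ⟨v', hv', rfl⟩
      rcases v' with ⟨i, b⟩ | u
      · exact absurd hv' (hK i b)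
      · exact hv'
    · intro hv
      refine ⟨v, hv, ?_⟩
      rcases v with ⟨i, b⟩ | u
      · exact absurd hv (hK i b)
      · rfl
  have h1 := hι.au (s1 β) (r1 r) hr'
  have h2 := cl_au hι (s1 β) (r1 r) hr'
  rw [hs] at h1 h2
  rw [Lp_eta]
  refine ⟨h1, ?_⟩
  have h3 : (∏ i, Equiv.Perm.sign ((r1 r : NV (n + 1) W → Equiv.Perm (Fin 3)) i)) = 1 := by
    rw [Fintype.prod_sum_type, Fintype.prod_prod_type]
    have : ∀ i : Fin (n + 1), ∏ b : Bool, Equiv.Perm.sign ((r1 r : NV (n + 1) W →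
        Equiv.Perm (Fin 3)) (Sum.inl (i, b))) = 1 := by
      intro i
      rw [Fintype.prod_bool]
      show Equiv.Perm.sign (if i = 0 then r else 1) * Equiv.Perm.sign (if i = 0 then r else 1) = 1
      exact Int.units_mul_self _
    simp only [this]
    simp [r1]
  rw [h3] at h2
  simpa using h2

/-- IHX at all edges of an orbit -/
theorem ihx_expand [Fintype W] {K : Set (NV (n + 1) W)} (hK : ∀ i b, Sum.inl (i, b) ∉ K)
    {ι : Equiv.Perm (NV (n + 1) W × Fin 3)} (hι : Val ι K)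
    (he : ∀ i : Fin (n + 1), ι (Sum.inl (i, false), 0) = (Sum.inl (i, true), 0)) :
    (∀ f : Fin (n + 1) → Fin 2, Val (cj (Lp fun i => (![lk, ls] : Fin 2 → _) (f i)) ι) K) ∧
      cl ι K = ∑ f : Fin (n + 1) → Fin 2, (∏ i, (![-1, 1] : Fin 2 → ℤ) (f i)) •
        cl (cj (Lp fun i => (![lk, ls] : Fin 2 → _) (f i)) ι) K := by
  refine expand (![lk, ls]) (![-1, 1]) (fun _ => K) ?_ hι he
  intro i ι' hι' he'
  have hp : Function.Injective (fun b => (Sum.inl (i, b) : NV (n + 1) W)) := by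
    intro b b' h
    simpa using h
  obtain ⟨h1, h2, h3⟩ := ihx_step hp hι' (fun b => hK i b) he' (loc_sg i lk) (loc_sg i ls)
  constructor
  · intro j
    fin_cases j
    · exact h1
    · exact h2
  · rw [h3, Fin.sum_univ_two]
    simp

/-- the terms of the expansion are permuted with the sign `-1` -/
theorem ihx_terms [Fintype W] [DecidableEq W] (d : LocData) (hR : d.R = ![lk, ls])
    (hη : ∀ j, ∃ β r, d.η j = Equiv.prodCongr β r) (hε : d.ε = ![-1, 1])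
    (hθ1 : ∀ j, d.θ j = 1 ∨ d.θ j = lsw)
    {K : Set (NV (n + 1) W)} (hK : ∀ i b, Sum.inl (i, b) ∉ K)
    (σW : Equiv.Perm W) (ρW : W → Equiv.Perm (Fin 3))
    (hKs : (Equiv.sumCongr (Equiv.prodCongr (finRotate (n + 1)) (Equiv.refl Bool)) σW) '' K = K)
    (hr : ∀ u, Sum.inr u ∈ K → ρW u = 1)
    {ι : Equiv.Perm (NV (n + 1) W × Fin 3)} (hι : Val ι K)
    (he : ∀ i : Fin (n + 1), ι (Sum.inl (i, false), 0) = (Sum.inl (i, true), 0))
    (hφ : cj (Lp (sg 0 d.γ) * sh0 σW ρW) ι = ι) (hs : (sgW ρW : ℤ) * d.sγ = -1)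
    (f : Fin (n + 1) → Fin 2) :
    (∏ i, (![-1, 1] : Fin 2 → ℤ) (nf d.τ f i)) •
        cl (cj (Lp fun i => (![lk, ls] : Fin 2 → _) (nf d.τ f i)) ι) K =
      - ((∏ i, (![-1, 1] : Fin 2 → ℤ) (f i)) •
        cl (cj (Lp fun i => (![lk, ls] : Fin 2 → _) (f i)) ι) K) := by
  have hθ : ∀ j, cj (Lp (sg 0 (d.θ j))) ι = ι := by
    intro j
    rcases hθ1 j with h | h
    · rw [h]
      have : (sg 0 1 : Fin (n + 1) → Equiv.Perm LH) = 1 := by
        funext i; simp [sg]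
      rw [this, Lp_one, cj_one]
    · rw [h]
      exact theta_fix hι.invol 0 (he 0)
  have h1 := equi d σW ρW hφ hθ f
  have hval := (ihx_expand hK hι he).1 f
  obtain ⟨β, r, hβ⟩ := hη (f (Fin.last n))
  rw [hR, hβ, cj_mul] at h1
  obtain ⟨h2, h3⟩ := cl_sh0 σW ρW hKs hr hval
  obtain ⟨h4, h5⟩ := cl_eta β r hK h2
  have h6 := prod_nf d.τ d.ε d.sγ d.sign f
  rw [hε] at h6
  rw [h6, ← h1, h5, h3, smul_smul, mul_assoc, mul_comm d.sγ, hs, mul_neg_one, neg_smul]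

/-- Cancellation if the two resolutions are exchanged. -/
theorem ihx_zero [Fintype W] [DecidableEq W] (d : LocData) (hR : d.R = ![lk, ls])
    (hη : ∀ j, ∃ β r, d.η j = Equiv.prodCongr β r) (hε : d.ε = ![-1, 1])
    (hθ1 : ∀ j, d.θ j = 1 ∨ d.θ j = lsw) (hτ : d.τ = Equiv.swap 0 1)
    {K : Set (NV (n + 1) W)} (hK : ∀ i b, Sum.inl (i, b) ∉ K)
    (σW : Equiv.Perm W) (ρW : W → Equiv.Perm (Fin 3))
    (hKs : (Equiv.sumCongr (Equiv.prodCongr (finRotate (n + 1)) (Equiv.refl Bool)) σW) '' K = K)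
    (hr : ∀ u, Sum.inr u ∈ K → ρW u = 1)
    {ι : Equiv.Perm (NV (n + 1) W × Fin 3)} (hι : Val ι K)
    (he : ∀ i : Fin (n + 1), ι (Sum.inl (i, false), 0) = (Sum.inl (i, true), 0))
    (hφ : cj (Lp (sg 0 d.γ) * sh0 σW ρW) ι = ι) (hs : (sgW ρW : ℤ) * d.sγ = -1) :
    cl ι K = 0 := by
  rw [(ihx_expand hK hι he).2]
  apply sum_zero (nf d.τ) _ (ihx_terms d hR hη hε hθ1 hK σW ρW hKs hr hι he hφ hs)
    (fun f => ∏ i, (![1, -1] : Fin 2 → ℤˣ) (f i))
  intro f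
  have := prod_nf (n := n) d.τ (![1, -1] : Fin 2 → ℤˣ) (-1) (by rw [hτ]; decide) f
  rw [this, mul_neg_one]

/-- the vertices on the circle in the expansion of STU -/
def KS (KW : Set W) (p : ℕ) : Set (NV (n + 1) W) :=
  {v | (∃ i, v = Sum.inl (i, true)) ∨ (∃ i : Fin (n + 1), (i : ℕ) < p ∧ v = Sum.inl (i, false)) ∨
    ∃ u ∈ KW, v = Sum.inr u}

theorem KS_succ (KW : Set W) (i : Fin (n + 1)) :
    (KS KW ((i : ℕ) + 1) : Set (NV (n + 1) W)) = insert (Sum.inl (i, false)) (KS KW i) := by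
  ext v
  constructor
  · rintro (⟨j, rfl⟩ | ⟨j, hj, rfl⟩ | ⟨u, hu, rfl⟩)
    · right; left; exact ⟨j, rfl⟩
    · by_cases h : (j : ℕ) = i
      · left
        rw [Fin.ext h]
      · right; right; left; exact ⟨j, by omega, rfl⟩
    · right; right; right; exact ⟨u, hu, rfl⟩
  · rintro (rfl | ⟨j, rfl⟩ | ⟨j, hj, rfl⟩ | ⟨u, hu, rfl⟩)
    · right; left; exact ⟨i, by omega, rfl⟩
    · left; exact ⟨j, rfl⟩
    · right; left; exact ⟨j, by omega, rfl⟩
    · right; right; exact ⟨u, hu, rfl⟩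

theorem KS_not (KW : Set W) (i : Fin (n + 1)) :
    (Sum.inl (i, false) : NV (n + 1) W) ∉ KS KW (i : ℕ) := by
  rintro (⟨j, h⟩ | ⟨j, hj, h⟩ | ⟨u, hu, h⟩)
  · simp at h
  · have := (Prod.mk.inj (Sum.inl_injective h)).1
    rw [this] at hj
    exact lt_irrefl _ hj
  · simp at h

theorem stu_expand [Fintype W] {KW : Set W}
    {ι : Equiv.Perm (NV (n + 1) W × Fin 3)} (hι : Val ι (KS KW 0))
    (he : ∀ i : Fin (n + 1), ι (Sum.inl (i, false), 0) = (Sum.inl (i, true), 0)) :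
    (∀ f : Fin (n + 1) → Fin 2,
      Val (cj (Lp fun i => (![lm, lm * lf] : Fin 2 → _) (f i)) ι) (KS KW (n + 1))) ∧
      cl ι (KS KW 0) = ∑ f : Fin (n + 1) → Fin 2, (∏ i, (![1, -1] : Fin 2 → ℤ) (f i)) •
        cl (cj (Lp fun i => (![lm, lm * lf] : Fin 2 → _) (f i)) ι) (KS KW (n + 1)) := by
  refine expand (![lm, lm * lf]) (![1, -1]) (KS KW) ?_ hι he
  intro i ι' hι' he'
  have hp : Function.Injective (fun b => (Sum.inl (i, b) : NV (n + 1) W)) := by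
    intro b b' h
    simpa using h
  obtain ⟨h1, h2, h3⟩ := stu_step hp hι' (Or.inl ⟨i, rfl⟩) (KS_not KW i) he' (loc_sg i lm)
    (loc_sg i (lm * lf))
  rw [← KS_succ] at h1 h2 h3
  constructor
  · intro j
    fin_cases j
    · exact h1
    · exact h2
  · rw [h3, Fin.sum_univ_two]
    simp [sub_eq_add_neg]

theorem stu_zero [Fintype W] [DecidableEq W] {KW : Set W}
    (σW : Equiv.Perm W) (ρW : W → Equiv.Perm (Fin 3)) (hKW : σW '' KW = KW)
    (hr : ∀ u ∈ KW, ρW u = 1)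
    {ι : Equiv.Perm (NV (n + 1) W × Fin 3)} (hι : Val ι (KS KW 0))
    (he : ∀ i : Fin (n + 1), ι (Sum.inl (i, false), 0) = (Sum.inl (i, true), 0))
    (hφ : cj (Lp (sg 0 lf) * sh0 σW ρW) ι = ι) (hs : (sgW ρW : ℤ) = 1) :
    cl ι (KS KW 0) = 0 := by
  have hKs : (Equiv.sumCongr (Equiv.prodCongr (finRotate (n + 1)) (Equiv.refl Bool)) σW) ''
      (KS KW (n + 1)) = KS KW (n + 1) := by
    ext v
    constructor
    · rintro ⟨_, ⟨j, rfl⟩ | ⟨j, hj, rfl⟩ | ⟨u, hu, rfl⟩, rfl⟩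
      · left; exact ⟨_, rfl⟩
      · right; left; exact ⟨_, (finRotate (n + 1) j).2, rfl⟩
      · right; right
        refine ⟨σW u, ?_, rfl⟩
        rw [← hKW]
        exact ⟨u, hu, rfl⟩
    · rintro (⟨j, rfl⟩ | ⟨j, hj, rfl⟩ | ⟨u, hu, rfl⟩)
      · refine ⟨Sum.inl ((finRotate (n + 1)).symm j, true), Or.inl ⟨_, rfl⟩, ?_⟩
        simp
      · refine ⟨Sum.inl ((finRotate (n + 1)).symm j, false),
          Or.inr (Or.inl ⟨_, ((finRotate (n + 1)).symm j).2, rfl⟩), ?_⟩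
        simp
      · rw [← hKW] at hu
        obtain ⟨u', hu', rfl⟩ := hu
        exact ⟨Sum.inr u', Or.inr (Or.inr ⟨u', hu', rfl⟩), rfl⟩
  have hr' : ∀ u, (Sum.inr u : NV (n + 1) W) ∈ KS KW (n + 1) → ρW u = 1 := by
    rintro u (⟨j, h⟩ | ⟨j, hj, h⟩ | ⟨u', hu, h⟩)
    · cases h
    · cases h
    · rw [Sum.inr_injective h]; exact hr _ hu
  rw [(stu_expand hι he).2]
  have hT : ∀ f : Fin (n + 1) → Fin 2, (∏ i, (![1, -1] : Fin 2 → ℤ) (nf dS.τ f i)) •
        cl (cj (Lp fun i => (![lm, lm * lf] : Fin 2 → _) (nf dS.τ f i)) ι) (KS KW (n + 1)) =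
      - ((∏ i, (![1, -1] : Fin 2 → ℤ) (f i)) •
        cl (cj (Lp fun i => (![lm, lm * lf] : Fin 2 → _) (f i)) ι) (KS KW (n + 1))) := by
    intro f
    have h1 : (sg 0 1 : Fin (n + 1) → Equiv.Perm LH) = 1 := by
      funext i; simp [sg]
    have hθ : ∀ j, cj (Lp (sg 0 (dS.θ j))) ι = ι := by
      intro j
      show cj (Lp (sg 0 1)) ι = ι
      rw [h1, Lp_one, cj_one]
    have h2 := equi dS σW ρW hφ hθ f
    have h3 : dS.η (f (Fin.last n)) = 1 := rfl
    rw [h3, h1, Lp_one, one_mul] at h2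
    have hval := (stu_expand hι he).1 f
    obtain ⟨h4, h5⟩ := cl_sh0 σW ρW hKs hr' hval
    have h6 := prod_nf dS.τ dS.ε dS.sγ dS.sign f
    have h7 : ∏ i, (![1, -1] : Fin 2 → ℤ) (nf dS.τ f i) =
      (∏ i, (![1, -1] : Fin 2 → ℤ) (f i)) * (-1) := h6
    have h8 : cj (Lp fun i => (![lm, lm * lf] : Fin 2 → _) (nf dS.τ f i)) ι =
      cj (sh0 σW ρW) (cj (Lp fun i => (![lm, lm * lf] : Fin 2 → _) (f i)) ι) := h2.symm
    rw [h7, h8, h5, hs, one_smul, mul_neg_one, neg_smul]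
  apply sum_zero (nf dS.τ) _ hT (fun f => ∏ i, (![1, -1] : Fin 2 → ℤˣ) (f i))
  intro f
  have := prod_nf (n := n) dS.τ (![1, -1] : Fin 2 → ℤˣ) (-1) (by decide) f
  rw [this, mul_neg_one]

end

end Pool.Agent.Helper1.OA
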