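import Pool.Agent.Helper1.OA.NFmain

namespace Pool.Agent.Helper1.OA

open Finset

section
variable {V : Type} (s : Equiv.Perm V) (r : V → Equiv.Perm (Fin 3))

/-- slot permutations of the powers -/
def rq : ℕ → V → Equiv.Perm (Fin 3)
  | 0, _ => 1
  | q + 1, i => r ((s ^ q) i) * rq q i

/-- signs -/
def sgn (i : V) : ℤˣ := Equiv.Perm.sign (r i)

theorem au_pow (q : ℕ) (i : V) (k : Fin 3) :
    ((au s r : Equiv.Perm (V × Fin 3)) ^ q) (i, k) = ((s ^ q) i, rq s r q i k) := by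
  induction q with
  | zero => rfl
  | succ q ih =>
    rw [pow_succ', Equiv.Perm.mul_apply, ih, au_apply, pow_succ']
    rfl

theorem sign_rq (q : ℕ) (i : V) : Equiv.Perm.sign (rq s r q i) = hol s (sgn r) q i := by
  induction q with
  | zero => simp [rq, hol_zero]
  | succ q ih =>
    rw [rq, map_mul, ih, hol_succ, mul_comm]
    rfl

theorem rq_K {K : Set V} (hs : s '' K = K) (hr : ∀ i ∈ K, r i = 1) (q : ℕ) {i : V} (hi : i ∈ K) :
    (s ^ q) i ∈ K ∧ rq s r q i = 1 := by
  induction q with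
  | zero => exact ⟨hi, rfl⟩
  | succ q ih =>
    constructor
    · rw [pow_succ', Equiv.Perm.mul_apply, ← hs]
      exact ⟨_, ih.1, rfl⟩
    · rw [rq, hr _ ih.1, ih.2, one_mul]

theorem K_pow {K : Set V} (hs : s '' K = K) (q : ℕ) {i : V} : (s ^ q) i ∈ K ↔ i ∈ K := by
  induction q with
  | zero => rfl
  | succ q ih =>
    rw [pow_succ', Equiv.Perm.mul_apply, ← ih]
    constructor
    · intro h
      rw [← hs] at h
      obtain ⟨x, hx, e⟩ := h
      rw [← s.injective e]; exact hx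
    · intro h
      rw [← hs]; exact ⟨_, h, rfl⟩

theorem au_comp {V' V'' : Type} (s : V ≃ V') (r : V → Equiv.Perm (Fin 3)) (s' : V' ≃ V'')
    (r' : V' → Equiv.Perm (Fin 3)) :
    (au s r).trans (au s' r') = au (s.trans s') (fun i => r' (s i) * r i) := by
  ext x <;> rfl

theorem comm_pow {ι : Equiv.Perm (V × Fin 3)} {g : Equiv.Perm (V × Fin 3)} (h : cj g ι = ι)
    (q : ℕ) (x : V × Fin 3) : ι ((g ^ q) x) = (g ^ q) (ι x) := by
  induction q with
  | zero => rfl
  | succ q ih =>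
    rw [pow_succ', Equiv.Perm.mul_apply, Equiv.Perm.mul_apply, ← ih]
    conv_lhs => rw [← h]
    rw [cj_apply]

variable [Fintype V] [DecidableEq V]

theorem reduce {ι : Equiv.Perm (V × Fin 3)} {K : Set V} (hι : Val ι K) (hs : s '' K = K)
    (hr : ∀ i ∈ K, r i = 1) (hφ : cj (au s r) ι = ι) (hsign : ∏ i, sgn r i = -1)
    (n : ℕ) (bs : Bool → V) (aS : Bool → Equiv.Perm (Fin 3)) (γ : Equiv.Perm LH)
    (hve : Function.Injective (fun x : Fin (n + 1) × Bool => (s ^ (x.1 : ℕ)) (bs x.2)))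
    (hmono : ∀ b k, ((au s r : Equiv.Perm (V × Fin 3)) ^ (n + 1)) (bs b, aS b k) =
      (bs (γ (b, k)).1, aS (γ (b, k)).1 (γ (b, k)).2))
    (hedge : ι (bs false, aS false 0) = (bs true, aS true 0))
    (haK : ∀ b, bs b ∈ K → aS b = 1) :
    ∃ (W : Type) (_ : Fintype W) (_ : DecidableEq W) (em : W → V) (σW : Equiv.Perm W)
      (ι' : Equiv.Perm (NV (n + 1) W × Fin 3)) (K' : Set (NV (n + 1) W)),
      Function.Injective em ∧ (∀ u, em (σW u) = s (em u)) ∧
      (∀ u (i : Fin (n + 1)) b, em u ≠ (s ^ (i : ℕ)) (bs b)) ∧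
      (∀ u, Sum.inr u ∈ K' ↔ em u ∈ K) ∧ (∀ i b, Sum.inl (i, b) ∈ K' ↔ bs b ∈ K) ∧
      Val ι' K' ∧ (∀ i : Fin (n + 1), ι' (Sum.inl (i, false), 0) = (Sum.inl (i, true), 0)) ∧
      cj (Lp (sg 0 γ) * sh0 σW fun u => r (em u)) ι' = ι' ∧
      (cl ι' K' = 0 → cl ι K = 0) ∧
      sgW (fun u => r (em u)) * (hol s (sgn r) (n + 1) (bs false) *
        hol s (sgn r) (n + 1) (bs true)) = -1 := by
  classical
  set ve : Fin (n + 1) × Bool → V := fun x => (s ^ (x.1 : ℕ)) (bs x.2) with hvedef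
  set φ : Equiv.Perm (V × Fin 3) := au s r with hφdef
  have hp : ∀ u, (∀ x, u ≠ ve x) → (∀ x, s u ≠ ve x) := by
    have h1 : ∀ x, ∃ y, s (ve x) = ve y := by
      rintro ⟨i, b⟩
      by_cases hi : (i : ℕ) < n
      · refine ⟨(⟨(i : ℕ) + 1, by omega⟩, b), ?_⟩
        show s ((s ^ (i : ℕ)) (bs b)) = (s ^ ((i : ℕ) + 1)) (bs b)
        rw [pow_succ']
        rfl
      · have hi' : (i : ℕ) = n := by have := i.2; omega
        refine ⟨(0, (γ (b, 0)).1), ?_⟩
        have h2 := hmono b 0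
        rw [au_pow] at h2
        have h3 := (Prod.mk.inj h2).1
        show s ((s ^ (i : ℕ)) (bs b)) = (s ^ 0) (bs (γ (b, 0)).1)
        rw [hi', pow_zero, Equiv.Perm.one_apply, ← h3, pow_succ', Equiv.Perm.mul_apply]
    have h2 : s '' (Set.range ve) = Set.range ve := by
      have hsub : s '' (Set.range ve) ⊆ Set.range ve := by
        rintro _ ⟨_, ⟨x, rfl⟩, rfl⟩
        obtain ⟨y, hy⟩ := h1 x
        exact ⟨y, hy.symm⟩
      apply Set.eq_of_subset_of_ncard_le hsub
      rw [Set.ncard_image_of_injective _ s.injective]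
    intro u hu x hx
    have h3 : s u ∈ s '' (Set.range ve) := by rw [h2, hx]; exact ⟨x, rfl⟩
    obtain ⟨y, ⟨z, rfl⟩, hy⟩ := h3
    exact hu z (s.injective hy).symm
  set W : Type := {u : V // ∀ x, u ≠ ve x} with hW
  have hp' : ∀ u, (∀ x, s u ≠ ve x) → (∀ x, u ≠ ve x) := by
    intro u hu
    have h3 : ∀ v : W, ∃ w : W, s w.1 = v.1 := by
      set g : W → W := fun w => ⟨s w.1, hp w.1 w.2⟩ with hg
      have hinj : Function.Injective g := by
        intro w w' h
        apply Subtype.ext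
        exact s.injective (congrArg Subtype.val h)
      have hsur := Finite.surjective_of_injective hinj
      intro v
      obtain ⟨w, hw⟩ := hsur v
      exact ⟨w, congrArg Subtype.val hw⟩
    obtain ⟨w, hw⟩ := h3 ⟨s u, hu⟩
    have := s.injective hw
    rw [← this]
    exact w.2
  set σW : Equiv.Perm W := s.subtypePerm (fun u => ⟨hp' u, hp u⟩) with hσW
  have hσ : ∀ u : W, ((σW u : W) : V) = s u.1 := fun u => rfl
  set Ef : NV (n + 1) W → V := fun x => Sum.elim ve (fun u => u.1) x with hEf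
  have hEbij : Function.Bijective Ef := by
    constructor
    · rintro (x | u) (x' | u') h
      · exact congrArg _ (hve h)
      · exact absurd h.symm (u'.2 x)
      · exact absurd h (u.2 x')
      · exact congrArg _ (Subtype.ext h)
    · intro v
      by_cases hv : ∀ x, v ≠ ve x
      · exact ⟨Sum.inr ⟨v, hv⟩, rfl⟩
      · push Not at hv
        obtain ⟨x, hx⟩ := hv
        exact ⟨Sum.inl x, hx.symm⟩
  set E : NV (n + 1) W ≃ V := Equiv.ofBijective Ef hEbij with hE
  set ρ : NV (n + 1) W → Equiv.Perm (Fin 3) :=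
    fun x => Sum.elim (fun y => rq s r (y.1 : ℕ) (bs y.2) * aS y.2) (fun _ => 1) x with hρ
  set Ψ : NV (n + 1) W × Fin 3 ≃ V × Fin 3 := au E ρ with hΨ
  have Ψl : ∀ i b k, Ψ (Sum.inl (i, b), k) = (φ ^ (i : ℕ)) (bs b, aS b k) := by
    intro i b k
    rw [hφdef, au_pow]
    rfl
  have Ψr : ∀ (u : W) k, Ψ (Sum.inr u, k) = (u.1, k) := fun u k => rfl
  set ι' : Equiv.Perm (NV (n + 1) W × Fin 3) := cj Ψ.symm ι with hι'
  set K' : Set (NV (n + 1) W) := E ⁻¹' K with hK'
  have hcj : cj Ψ ι' = ι := by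
    rw [hι']
    exact cj_symm Ψ.symm ι
  have hEK : E '' K' = K := Set.image_preimage_eq _ E.surjective
  have hρK : ∀ x ∈ K', ρ x = 1 := by
    rintro (⟨i, b⟩ | u) hx
    · have h1 : (s ^ (i : ℕ)) (bs b) ∈ K := hx
      rw [K_pow s hs] at h1
      show rq s r (i : ℕ) (bs b) * aS b = 1
      rw [(rq_K s r hs hr (i : ℕ) h1).2, haK b h1, one_mul]
    · rfl
  have hval' : Val ι' K' := by
    have e1 : Ψ.symm = au E.symm (fun v => (ρ (E.symm v))⁻¹) := by
      apply Equiv.ext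
      intro x
      rw [Equiv.symm_apply_eq]
      rcases x with ⟨v, k⟩
      rw [hΨ]
      show (v, k) = (E (E.symm v), ρ (E.symm v) ((ρ (E.symm v))⁻¹ k))
      simp
    have h1 := hι.au E.symm (fun v => (ρ (E.symm v))⁻¹) (by
      intro v hv
      have : E.symm v ∈ K' := by show E (E.symm v) ∈ K; simpa using hv
      rw [hρK _ this, inv_one])
    rw [← e1] at h1
    have e2 : E.symm '' K = K' := Equiv.image_symm_eq_preimage E K
    rw [e2] at h1
    exact h1
  have hΨφ : ∀ x, Ψ ((Lp (sg 0 γ) * sh0 σW (fun u => r u.1) :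
      Equiv.Perm (NV (n + 1) W × Fin 3)) x) = φ (Ψ x) := by
    rintro ⟨⟨i, b⟩ | u, k⟩
    · rw [Equiv.Perm.mul_apply, sh0_inl, Ψl]
      by_cases hi : (i : ℕ) < n
      · have h1 : finRotate (n + 1) i = ⟨(i : ℕ) + 1, by omega⟩ := finRotate_of_lt hi
        rw [h1, Lp_inl]
        have h2 : (⟨(i : ℕ) + 1, by omega⟩ : Fin (n + 1)) ≠ 0 := by
          intro h; have := congrArg Fin.val h; simp at this
        simp only [sg, if_neg h2]
        rw [Equiv.Perm.one_apply, Ψl]
        show (φ ^ ((i : ℕ) + 1)) (bs b, aS b k) = _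
        rw [pow_succ']
        rfl
      · have hi' : i = Fin.last n := Fin.ext (by have := i.2; simp; omega)
        rw [hi', finRotate_last, Lp_inl]
        simp only [sg, if_true]
        rw [Ψl]
        show (φ ^ 0) _ = φ ((φ ^ n) (bs b, aS b k))
        rw [← Equiv.Perm.mul_apply, ← pow_succ', hmono, pow_zero]
        rfl
    · rfl
  refine ⟨W, inferInstance, inferInstance, fun u => u.1, σW, ι', K', Subtype.val_injective, hσ,
    fun u i b => u.2 (i, b), fun u => Iff.rfl, fun i b => K_pow s hs (i : ℕ), hval', ?_, ?_, ?_, ?_⟩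
  · intro i
    apply Ψ.injective
    have h1 := cj_apply Ψ ι' (Sum.inl (i, false), 0)
    rw [hcj] at h1
    rw [← h1, Ψl, Ψl, comm_pow hφ, hedge]
  · apply cj_eq_of
    intro x
    apply Ψ.injective
    have h1 : ∀ y, Ψ (ι' y) = ι (Ψ y) := by
      intro y
      rw [← cj_apply Ψ ι', hcj]
    rw [h1, hΨφ, hΨφ, h1]
    have := comm_pow hφ 1 (Ψ x)
    simpa using this
  · intro h0
    have h1 := cl_au hval' E ρ hρK
    rw [h0, smul_zero, hEK, ← hΨ, hcj] at h1
    exact h1
  · have h1 : ∏ x, sgn r (E x) = ∏ i, sgn r i := Equiv.prod_comp E _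
    rw [← hsign, ← h1, Fintype.prod_sum_type, Fintype.prod_prod_type_right, Fintype.prod_bool]
    have h2 : ∀ b, ∏ i : Fin (n + 1), sgn r (E (Sum.inl (i, b))) = hol s (sgn r) (n + 1) (bs b) := by
      intro b
      unfold hol
      rw [Finset.prod_range]
      rfl
    rw [h2, h2, mul_comm, mul_comm (hol s (sgn r) (n + 1) (bs false))]
    rfl

end

end Pool.Agent.Helper1.OA
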