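import Pool.Agent.Helper1.OA.Step

namespace Pool.Agent.Helper1.OA

open Finset

section
variable {V : Type} [Fintype V] [DecidableEq V]

/-- sign moves -/
def SM (K : Set V) (g : Equiv.Perm (V × Fin 3)) (s : ℤ) : Prop :=
  ∀ ι, Val ι K → Val (cj g ι) K ∧ cl (cj g ι) K = s • cl ι K

theorem SM.mul {K : Set V} {g g' : Equiv.Perm (V × Fin 3)} {s s' : ℤ} (h : SM K g s)
    (h' : SM K g' s') : SM K (g * g') (s * s') := by
  intro ι hι
  rw [cj_mul]
  obtain ⟨h1, h2⟩ := h' ι hι
  obtain ⟨h3, h4⟩ := h _ h1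
  refine ⟨h3, ?_⟩
  rw [h4, h2, smul_smul]

theorem SM.one (K : Set V) : SM K (1 : Equiv.Perm (V × Fin 3)) 1 := by
  intro ι hι
  rw [cj_one]
  exact ⟨hι, (one_smul _ _).symm⟩

/-- permutation of the slots of one vertex -/
def sp (i : V) (r : Equiv.Perm (Fin 3)) : Equiv.Perm (V × Fin 3) :=
  au (Equiv.refl V) fun j => if j = i then r else 1

theorem sp_mul (i : V) (r r' : Equiv.Perm (Fin 3)) : sp i (r * r') = sp i r * sp i r' := by
  ext x : 1
  rcases x with ⟨j, k⟩
  rw [Equiv.Perm.mul_apply]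
  unfold sp
  rw [au_apply, au_apply, au_apply]
  by_cases h : j = i <;> simp [h]

theorem sp_one (i : V) : sp i 1 = 1 := by
  ext x : 1
  rcases x with ⟨j, k⟩
  unfold sp
  rw [au_apply]
  by_cases h : j = i <;> simp [h]

theorem sp_swap (i : V) (k k' : Fin 3) : sp i (Equiv.swap k k') = Equiv.swap (i, k) (i, k') := by
  ext x : 1
  rcases x with ⟨j, m⟩
  unfold sp
  rw [au_apply]
  by_cases hj : j = i
  · subst hj
    simp only [Equiv.swap_apply_def, Prod.mk.injEq, true_and, if_true]
    split_ifs <;> rfl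
  · rw [Equiv.swap_apply_of_ne_of_ne] <;> simp [hj]

theorem SM_sp {K : Set V} {i : V} (hi : i ∉ K) (r : Equiv.Perm (Fin 3)) :
    SM K (sp i r) (Equiv.Perm.sign r : ℤ) := by
  induction r using Equiv.Perm.swap_induction_on with
  | one => rw [sp_one]; simpa using SM.one K
  | swap_mul f x y hxy ih =>
    rw [sp_mul, sp_swap, map_mul, Equiv.Perm.sign_swap hxy]
    have h1 : SM K (Equiv.swap (i, x) (i, y)) (-1) := by
      intro ι hι
      refine ⟨val_swap hι hi x y, ?_⟩
      rw [cl_swap hι hi hxy, neg_one_smul]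
    have := h1.mul ih
    simpa using this

theorem SM_slots_aux {K : Set V} (r : V → Equiv.Perm (Fin 3)) (hr : ∀ i ∈ K, r i = 1)
    (s : Finset V) :
    SM K (au (Equiv.refl V) fun i => if i ∈ s then r i else 1)
      (∏ i ∈ s, (Equiv.Perm.sign (r i) : ℤ)) := by
  induction s using Finset.induction_on with
  | empty =>
    have : (au (Equiv.refl V) fun i => if i ∈ (∅ : Finset V) then r i else 1) =
        (1 : Equiv.Perm (V × Fin 3)) := by
      ext x : 1
      rcases x with ⟨j, k⟩
      rw [au_apply]; simp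
    rw [this]
    simpa using SM.one K
  | insert a s ha ih =>
    have e : (au (Equiv.refl V) fun i => if i ∈ insert a s then r i else 1) =
        sp a (r a) * (au (Equiv.refl V) fun i => if i ∈ s then r i else 1) := by
      ext x : 1
      rcases x with ⟨j, k⟩
      rw [Equiv.Perm.mul_apply]
      unfold sp
      rw [au_apply, au_apply, au_apply]
      by_cases h : j = a
      · subst h
        simp [ha]
      · simp [h]
    rw [e, Finset.prod_insert ha]
    by_cases haK : a ∈ K
    · rw [hr a haK, sp_one, one_mul]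
      simpa using ih
    · exact (SM_sp haK (r a)).mul ih

theorem SM_slots {K : Set V} (r : V → Equiv.Perm (Fin 3)) (hr : ∀ i ∈ K, r i = 1) :
    SM K (au (Equiv.refl V) r) (∏ i, (Equiv.Perm.sign (r i) : ℤ)) := by
  have := SM_slots_aux r hr univ
  simpa using this

theorem cl_au {V' : Type} [Finite V'] {ι : Equiv.Perm (V × Fin 3)} {K : Set V}
    (h : Val ι K) (s : V ≃ V') (r : V → Equiv.Perm (Fin 3)) (hr : ∀ i ∈ K, r i = 1) :
    cl (cj (au s r) ι) (s '' K) = ((∏ i, Equiv.Perm.sign (r i) : ℤˣ) : ℤ) • cl ι K := by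
  have e : au s r = (au (Equiv.refl V) r).trans (au s fun _ => 1) := rfl
  obtain ⟨h1, h2⟩ := SM_slots r hr ι h
  rw [e, cj_trans, cl_iso h1 s, h2]
  push_cast
  rfl

end

end Pool.Agent.Helper1.OA
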