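import Pool.Agent.Helper1.OA.Cls

namespace Pool.Agent.Helper1.OA

open Finset

/-- local half-edges: `(false, k)` at the first, `(true, k)` at the second vertex -/
abbrev LH : Type := Bool × Fin 3

/-- resolutions for IHX -/
def lk : Equiv.Perm LH :=
  Equiv.swap (false, 2) (true, 2) * Equiv.swap (false, 2) (true, 1)

def ls : Equiv.Perm LH := Equiv.swap (false, 2) (true, 1)

/-- resolutions for STU (first vertex not on the circle, second on the circle) -/
def lm : Equiv.Perm LH :=
  ([(true, 0), (true, 2), (false, 2), (false, 0), (false, 1)] : List LH).formPerm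

def lf : Equiv.Perm LH := Equiv.swap (false, 1) (false, 2)

/-- `g` acts at the vertices `p false, p true` like `R` and is trivial elsewhere -/
structure Loc {V : Type} (p : Bool → V) (R : Equiv.Perm LH) (g : Equiv.Perm (V × Fin 3)) : Prop where
  on : ∀ b k, g (p b, k) = (p (R (b, k)).1, (R (b, k)).2)
  off : ∀ u, (∀ b, u ≠ p b) → ∀ k, g (u, k) = (u, k)

section
variable {V : Type} {p : Bool → V} {ι : Equiv.Perm (V × Fin 3)} {K : Set V}

theorem Loc.mul {R R' : Equiv.Perm LH} {g g' : Equiv.Perm (V × Fin 3)} (h : Loc p R g)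
    (h' : Loc p R' g') : Loc p (R * R') (g * g') := by
  constructor
  · intro b k
    rw [Equiv.Perm.mul_apply, h'.on, h.on]
    rfl
  · intro u hu k
    rw [Equiv.Perm.mul_apply, h'.off u hu, h.off u hu]

theorem Loc.ext (hp : Function.Injective p) {R R' : Equiv.Perm LH} {g g' : Equiv.Perm (V × Fin 3)}
    (h : Loc p R g) (h' : Loc p R' g') (hR : R = R') : g = g' := by
  subst hR
  ext x : 1
  rcases x with ⟨u, k⟩
  by_cases hu : ∃ b, u = p b
  · obtain ⟨b, rfl⟩ := hu
    rw [h.on, h'.on]
  · push Not at hu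
    rw [h.off u hu, h'.off u hu]

theorem loc_swap [DecidableEq V] (hp : Function.Injective p) (b : Bool) (k : Fin 3) (b' : Bool)
    (k' : Fin 3) : Loc p (Equiv.swap (b, k) (b', k')) (Equiv.swap (p b, k) (p b', k')) := by
  constructor
  · intro c m
    have hinj : Function.Injective (fun x : LH => (p x.1, x.2)) := by
      rintro ⟨x, i⟩ ⟨y, j⟩ h
      have h1 := Prod.mk.inj h
      exact Prod.ext (hp h1.1) h1.2
    exact hinj.swap_apply (b, k) (b', k') (c, m)
  · intro u hu k
    apply Equiv.swap_apply_of_ne_of_ne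
    · intro h; exact hu b (Prod.mk.inj h).1
    · intro h; exact hu b' (Prod.mk.inj h).1

/-- the vertex of the image under a local permutation -/
theorem Loc.cases {R : Equiv.Perm LH} {g : Equiv.Perm (V × Fin 3)} (h : Loc p R g)
    (x : V × Fin 3) : ((∀ b, x.1 ≠ p b) ∧ g x = x) ∨ ((∃ b, x.1 = p b) ∧ ∃ b, (g x).1 = p b) := by
  rcases x with ⟨u, k⟩
  by_cases hu : ∃ b, u = p b
  · right
    refine ⟨hu, ?_⟩
    obtain ⟨b, rfl⟩ := hu
    rw [h.on]
    exact ⟨_, rfl⟩
  · left
    push Not at hu
    exact ⟨hu, h.off u hu k⟩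

theorem conn_loc (hι : Val ι K) {R : Equiv.Perm LH} {g : Equiv.Perm (V × Fin 3)} (h : Loc p R g)
    {k k' : Fin 3} (hnew : cj g ι (p false, k) = (p true, k')) (P : Set V) (hne : P.Nonempty)
    (hcl : ∀ i ∈ P, ∀ k, (cj g ι (i, k)).1 ∈ P) : P = Set.univ := by
  have hnew' : cj g ι (p true, k') = (p false, k) := by
    obtain ⟨y, hy⟩ := g.surjective (p false, k)
    rw [← hnew, ← hy, cj_apply, cj_apply, hι.invol]
  have hall : ∀ b b', p b ∈ P → p b' ∈ P := by
    intro b b' hb
    cases b <;> cases b'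
    · exact hb
    · have := hcl _ hb k; rw [hnew] at this; exact this
    · have := hcl _ hb k'; rw [hnew'] at this; exact this
    · exact hb
  apply hι.conn P hne
  intro i hi k
  -- the half-edge `g (i, k)` is at a vertex in `P`
  have h1 : (g (i, k)).1 ∈ P := by
    rcases h.cases (i, k) with ⟨_, e⟩ | ⟨⟨b, hb⟩, b', hb'⟩
    · rw [e]; exact hi
    · rw [hb']
      apply hall b b'
      have : i = p b := hb
      rw [← this]; exact hi
  have h2 : (g (ι (i, k))).1 ∈ P := by
    have := hcl _ h1 (g (i, k)).2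
    rw [Prod.mk.eta, cj_apply] at this
    exact this
  rcases h.cases (ι (i, k)) with ⟨_, e⟩ | ⟨⟨b, hb⟩, b', hb'⟩
  · rw [e] at h2; exact h2
  · rw [hb]
    apply hall b' b
    rw [← hb']; exact h2

theorem cj_invol (hι : Val ι K) (g : Equiv.Perm (V × Fin 3)) (x : V × Fin 3) :
    cj g ι (cj g ι x) = x := by
  obtain ⟨y, rfl⟩ := g.surjective x
  rw [cj_apply, cj_apply, hι.invol]

theorem cj_nofix (hι : Val ι K) (g : Equiv.Perm (V × Fin 3)) (x : V × Fin 3) :
    cj g ι x ≠ x := by
  obtain ⟨y, rfl⟩ := g.surjective x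
  rw [cj_apply]
  exact fun e => hι.nofix y (g.injective e)

/-- validity for IHX moves -/
theorem val_ihx (hι : Val ι K) (hK : ∀ b, p b ∉ K) {R : Equiv.Perm LH}
    {g : Equiv.Perm (V × Fin 3)} (h : Loc p R g) {k k' : Fin 3}
    (hnew : cj g ι (p false, k) = (p true, k')) : Val (cj g ι) K := by
  have hKg : ∀ i ∈ K, ∀ k, g (i, k) = (i, k) := by
    intro i hi k
    apply h.off
    rintro b rfl
    exact hK b hi
  have key : ∀ i ∈ K, cj g ι (i, 2) = ι (i, 2) := by
    intro i hi
    have := cj_apply g ι (i, 2)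
    rw [hKg i hi] at this
    rw [this]
    have h1 := hKg _ (hι.next i hi).1 (ι (i, 2)).2
    exact h1
  refine ⟨cj_invol hι g, cj_nofix hι g, ?_, hι.nonempty, ?_, fun P => conn_loc hι h hnew P⟩
  · intro i hi
    rw [key i hi]
    exact hι.next i hi
  · intro P hP hne hcl
    apply hι.circle P hP hne
    intro i hi
    rw [← key i (hP hi)]
    exact hcl i hi

theorem ihx_new {k : Fin 3} (hι : Val ι K) (he : ι (p false, 0) = (p true, 0))
    {R : Equiv.Perm LH} {g : Equiv.Perm (V × Fin 3)} (h : Loc p R g)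
    (hR0 : R (false, 0) = (false, 0)) (hR1 : R (true, 0) = (true, 0)) :
    cj g ι (p false, 0) = (p true, 0) := by
  have h1 := h.on false 0
  have h2 := h.on true 0
  rw [hR0] at h1
  rw [hR1] at h2
  have h3 := cj_apply g ι (p false, 0)
  rw [h1, he, h2] at h3
  exact h3

theorem lk0 : lk (false, 0) = (false, 0) := by decide
theorem lk1 : lk (true, 0) = (true, 0) := by decide
theorem ls0 : ls (false, 0) = (false, 0) := by decide
theorem ls1 : ls (true, 0) = (true, 0) := by decide
theorem lklk : lk * lk = Equiv.swap (true, 1) (true, 2) * ls := by decide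

theorem Loc.tr {V' : Type} {R : Equiv.Perm LH} {g : Equiv.Perm (V × Fin 3)} (h : Loc p R g)
    (e : V ≃ V') : Loc (fun b => e (p b)) R (cj (au e fun _ => 1) g) := by
  constructor
  · intro b k
    have h1 := cj_apply (au e fun _ => 1) g (p b, k)
    rw [h.on] at h1
    exact h1
  · intro u hu k
    obtain ⟨v, rfl⟩ := e.surjective u
    have h1 := cj_apply (au e fun _ => 1) g (v, k)
    rw [h.off v (fun b hb => hu b (by rw [hb]))] at h1
    exact h1

theorem cj_cj {V' : Type} (e : V × Fin 3 ≃ V' × Fin 3) (g ι : Equiv.Perm (V × Fin 3)) :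
    cj e (cj g ι) = cj (cj e g) (cj e ι) := by
  ext x : 1
  simp [cj]

/-- The IHX relation. -/
theorem ihx_step [Finite V] (hp : Function.Injective p) (hι : Val ι K) (hK : ∀ b, p b ∉ K)
    (he : ι (p false, 0) = (p true, 0)) {g0 g1 : Equiv.Perm (V × Fin 3)} (h0 : Loc p lk g0)
    (h1 : Loc p ls g1) :
    Val (cj g0 ι) K ∧ Val (cj g1 ι) K ∧ cl ι K = - cl (cj g0 ι) K + cl (cj g1 ι) K := by
  classical
  have hn0 := ihx_new (k := 0) hι he h0 lk0 lk1
  have hn1 := ihx_new (k := 0) hι he h1 ls0 ls1
  have v0 := val_ihx hι hK h0 hn0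
  have v1 := val_ihx hι hK h1 hn1
  have hn2 := ihx_new (k := 0) v0 hn0 h0 lk0 lk1
  have v2 := val_ihx v0 hK h0 hn2
  refine ⟨v0, v1, ?_⟩
  have e2 : cj g0 (cj g0 ι) = cj (Equiv.swap (p true, 1) (p true, 2)) (cj g1 ι) := by
    rw [← cj_mul, ← cj_mul]
    congr 1
    exact (h0.mul h0).ext hp ((loc_swap hp true 1 true 2).mul h1) lklk
  have e3 := cl_swap v1 (hK true) (by decide : (1 : Fin 3) ≠ 2)
  rw [← e2] at e3
  obtain ⟨n, ⟨e⟩⟩ := Finite.exists_equiv_fin V
  have hpe : Function.Injective (fun b => e (p b)) := e.injective.comp hp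
  have hg : cj (au e fun _ => 1) g0 =
      Equiv.swap (e (p false), 2) (e (p true), 2) * Equiv.swap (e (p false), 2) (e (p true), 1) :=
    (h0.tr e).ext hpe ((loc_swap hpe false 2 true 2).mul (loc_swap hpe false 2 true 1)) rfl
  have hrel := rel_cls (Rel.ihx (e (p false)) (e (p true))
    (fun h => by have := hpe h; cases this)
    (hι.au e (fun _ => 1) fun _ _ => rfl).diag (v0.au e (fun _ => 1) fun _ _ => rfl).diag
    (v2.au e (fun _ => 1) fun _ _ => rfl).diag
    (by rintro ⟨j, hj, ej⟩; exact hK false (e.injective ej ▸ hj))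
    (by rintro ⟨j, hj, ej⟩; exact hK true (e.injective ej ▸ hj))
    (by
      have := cj_apply (au e fun _ => 1) ι (p false, 0)
      rw [he] at this
      exact this)
    (by
      show cj (au e fun _ => 1) (cj g0 ι) = cj _ (cj (au e fun _ => 1) ι)
      rw [cj_cj, hg])
    (by
      show cj (au e fun _ => 1) (cj g0 (cj g0 ι)) = cj _ (cj (au e fun _ => 1) (cj g0 ι))
      rw [cj_cj, hg]) rfl rfl)
  rw [QuotientAddGroup.mk_add, QuotientAddGroup.mk_add] at hrel
  have hrel' : cl ι K + cl (cj g0 ι) K + cl (cj g0 (cj g0 ι)) K = 0 := by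
    rw [cl_num hι e, cl_num v0 e, cl_num v2 e]
    exact hrel
  rw [e3] at hrel'
  rw [← sub_eq_zero, ← hrel']
  abel

/-- validity for STU moves -/
theorem val_stu (hι : Val ι K) (hi : p true ∈ K) (hj : p false ∉ K)
    (he : ι (p true, 0) = (p false, 0)) {R : Equiv.Perm LH}
    {g : Equiv.Perm (V × Fin 3)} (h : Loc p R g) (R1 : R (true, 0) = (true, 2))
    (R2 : R (false, 0) = (false, 1)) (R3 : R (true, 2) = (false, 2))
    (R4 : R (true, 1) = (true, 1)) : Val (cj g ι) (insert (p false) K) := by
  have G1 : ∀ u ∈ K, g (u, 1) = (u, 1) := by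
    intro u hu
    by_cases hu' : u = p true
    · subst hu'
      rw [h.on, R4]
    · apply h.off
      intro b
      cases b
      · rintro rfl; exact hj hu
      · exact hu'
  have G2 : ∀ u ∈ K, g (ι (u, 2)) = ι (u, 2) := by
    intro u hu
    obtain ⟨h1, h2⟩ := hι.next u hu
    have h3 := G1 _ h1
    have h4 : ι (u, 2) = ((ι (u, 2)).1, 1) := Prod.ext rfl h2
    rw [h4]
    exact h3
  have new : cj g ι (p true, 2) = (p false, 1) := by
    have h1 := cj_apply g ι (p true, 0)
    rw [h.on, R1, he, h.on, R2] at h1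
    exact h1
  have new' : cj g ι (p false, 1) = (p true, 2) := by
    rw [← new, cj_invol hι g]
  have nf : cj g ι (p false, 2) = ι (p true, 2) := by
    have h1 := cj_apply g ι (p true, 2)
    rw [h.on, R3, G2 _ hi] at h1
    exact h1
  have nu : ∀ u ∈ K, u ≠ p true → cj g ι (u, 2) = ι (u, 2) := by
    intro u hu hu'
    have h1 := cj_apply g ι (u, 2)
    rw [h.off, G2 _ hu] at h1
    · exact h1
    · intro b
      cases b
      · rintro rfl; exact hj hu
      · exact hu'
  refine ⟨cj_invol hι g, cj_nofix hι g, ?_, ⟨_, Set.mem_insert _ _⟩, ?_,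
    fun P => conn_loc hι h new' P⟩
  · intro i hi'
    rcases hi' with rfl | hi'
    · rw [nf]
      exact ⟨Set.mem_insert_of_mem _ (hι.next _ hi).1, (hι.next _ hi).2⟩
    · by_cases hit : i = p true
      · subst hit
        rw [new]
        exact ⟨Set.mem_insert _ _, rfl⟩
      · rw [nu i hi' hit]
        exact ⟨Set.mem_insert_of_mem _ (hι.next _ hi').1, (hι.next _ hi').2⟩
  · intro P hP hne hcl
    have hP0 : P ∩ K = K := by
      apply hι.circle _ Set.inter_subset_right
      · obtain ⟨i, hi'⟩ := hne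
        rcases hP hi' with rfl | hiK
        · have := hcl _ hi'
          rw [nf] at this
          exact ⟨_, this, (hι.next _ hi).1⟩
        · exact ⟨i, hi', hiK⟩
      · rintro i ⟨h1, h2⟩
        refine ⟨?_, (hι.next _ h2).1⟩
        by_cases hit : i = p true
        · subst hit
          have h3 := hcl _ h1
          rw [new] at h3
          have h4 := hcl _ h3
          rw [nf] at h4
          exact h4
        · have h3 := hcl _ h1
          rw [nu i h2 hit] at h3
          exact h3
    have hK : K ⊆ P := by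
      intro i hi'
      rw [← hP0] at hi'
      exact hi'.1
    apply subset_antisymm hP
    intro i hi'
    rcases hi' with rfl | hi'
    · have := hcl _ (hK hi)
      rw [new] at this
      exact this
    · exact hK hi'

/-- The STU relation. -/
theorem stu_step [Finite V] (hp : Function.Injective p) (hι : Val ι K) (hi : p true ∈ K)
    (hj : p false ∉ K) (he : ι (p false, 0) = (p true, 0)) {g0 g1 : Equiv.Perm (V × Fin 3)}
    (h0 : Loc p lm g0) (h1 : Loc p (lm * lf) g1) :
    Val (cj g0 ι) (insert (p false) K) ∧ Val (cj g1 ι) (insert (p false) K) ∧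
      cl ι K = cl (cj g0 ι) (insert (p false) K) - cl (cj g1 ι) (insert (p false) K) := by
  classical
  have he' : ι (p true, 0) = (p false, 0) := by rw [← he, hι.invol]
  have v0 := val_stu hι hi hj he' h0 (by decide) (by decide) (by decide) (by decide)
  have v1 := val_stu hι hi hj he' h1 (by decide) (by decide) (by decide) (by decide)
  refine ⟨v0, v1, ?_⟩
  obtain ⟨n, ⟨e⟩⟩ := Finite.exists_equiv_fin V
  have hpe : Function.Injective (fun b => e (p b)) := e.injective.comp hp
  have hm : Loc (fun b => e (p b)) lm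
      ([(e (p true), 0), (e (p true), 2), (e (p false), 2), (e (p false), 0), (e (p false), 1)] :
        List (Fin n × Fin 3)).formPerm := by
    have e1 : lm = Equiv.swap (true, 0) (true, 2) * (Equiv.swap (true, 2) (false, 2) *
        (Equiv.swap (false, 2) (false, 0) * (Equiv.swap (false, 0) (false, 1) * 1))) := by
      decide
    have l1 : Loc (fun b => e (p b)) 1 (1 : Equiv.Perm (Fin n × Fin 3)) :=
      ⟨fun b k => rfl, fun u _ k => rfl⟩
    rw [e1]
    exact (loc_swap hpe true 0 true 2).mul ((loc_swap hpe true 2 false 2).mul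
      ((loc_swap hpe false 2 false 0).mul ((loc_swap hpe false 0 false 1).mul l1)))
  have hg0 := (h0.tr e).ext hpe hm rfl
  have hg1 := (h1.tr e).ext hpe (hm.mul (loc_swap hpe false 1 false 2)) rfl
  have hins : e '' (insert (p false) K) = insert (e (p false)) (e '' K) := Set.image_insert_eq
  have hrel := rel_cls (Rel.stu (e (p true)) (e (p false))
    (hι.au e (fun _ => 1) fun _ _ => rfl).diag (v0.au e (fun _ => 1) fun _ _ => rfl).diag
    (v1.au e (fun _ => 1) fun _ _ => rfl).diag ⟨_, hi, rfl⟩
    (by rintro ⟨j, hj', ej⟩; exact hj (e.injective ej ▸ hj'))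
    (by
      have := cj_apply (au e fun _ => 1) ι (p true, 0)
      rw [he'] at this
      exact this)
    (by
      show cj (au e fun _ => 1) (cj g0 ι) = cj _ (cj (au e fun _ => 1) ι)
      rw [cj_cj, hg0])
    (by
      show cj (au e fun _ => 1) (cj g1 ι) = cj _ (cj (au e fun _ => 1) ι)
      rw [cj_cj, hg1]) hins hins)
  rw [QuotientAddGroup.mk_sub, QuotientAddGroup.mk_sub] at hrel
  have hrel' : cl (cj g0 ι) (insert (p false) K) - cl (cj g1 ι) (insert (p false) K) -
      cl ι K = 0 := by
    rw [cl_num hι e, cl_num v0 e, cl_num v1 e]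
    exact hrel
  exact (sub_eq_zero.1 hrel').symm

end

end Pool.Agent.Helper1.OA
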