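import Pool.Agent.Helper1.OA.Red

namespace Pool.Agent.Helper1.OA

open Finset

/-- flipped vertices -/
def Fl {V : Type} (s : Equiv.Perm V) (r : V → Equiv.Perm (Fin 3)) (i : V) : Prop :=
  ∃ q : ℕ, (s ^ q) i = i ∧ Equiv.Perm.sign (rq s r q i) = -1

/-- an automorphism with sign `-1` -/
structure Odd' {V : Type} [Fintype V] (ι : Equiv.Perm (V × Fin 3)) (K : Set V) (s : Equiv.Perm V)
    (r : V → Equiv.Perm (Fin 3)) : Prop where
  hs : s '' K = K
  hr : ∀ i ∈ K, r i = 1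
  hφ : cj (au s r) ι = ι
  sign : ∏ i, sgn r i = -1

section
variable {n : ℕ} {W : Type}

theorem nf_one (f : Fin (n + 1) → Fin 2) (i : Fin (n + 1)) :
    nf 1 f i = f ((finRotate (n + 1)).symm i) := by
  rw [nf_apply]; split_ifs <;> rfl

theorem nf_one_pow (q : ℕ) (f : Fin (n + 1) → Fin 2) (i : Fin (n + 1)) :
    ((nf 1 : Equiv.Perm (Fin (n + 1) → Fin 2)) ^ q) f i =
      f ((((finRotate (n + 1)).symm : Equiv.Perm (Fin (n + 1))) ^ q) i) := by
  induction q generalizing i with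
  | zero => rfl
  | succ q ih =>
    rw [pow_succ', Equiv.Perm.mul_apply, nf_one, ih, pow_succ]
    rfl

theorem rot_pow : (((finRotate (n + 1)).symm : Equiv.Perm (Fin (n + 1))) ^ (n + 1)) = 1 := by
  have h : ∀ (q : ℕ) (i : Fin (n + 1)), ((finRotate (n + 1)) ^ q) i = i + q • (1 : Fin (n + 1)) := by
    intro q
    induction q with
    | zero => intro i; simp
    | succ q ih =>
      intro i
      rw [pow_succ', Equiv.Perm.mul_apply, ih, finRotate_apply, succ_nsmul, add_assoc]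
  have h1 : (finRotate (n + 1)) ^ (n + 1) = 1 := by
    ext i : 1
    rw [h]
    have : (n + 1) • (1 : Fin (n + 1)) = 0 := by
      have := card_nsmul_eq_zero (x := (1 : Fin (n + 1)))
      simpa using this
    rw [this, add_zero]
    rfl
  have h2 : ((finRotate (n + 1)).symm : Equiv.Perm (Fin (n + 1))) = (finRotate (n + 1))⁻¹ := rfl
  rw [h2, inv_pow, h1, inv_one]

theorem ihx_two [Fintype W] [DecidableEq W]
    {K : Set (NV (n + 1) W)} (hK : ∀ i b, Sum.inl (i, b) ∉ K)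
    (σW : Equiv.Perm W) (ρW : W → Equiv.Perm (Fin 3))
    (hKs : (Equiv.sumCongr (Equiv.prodCongr (finRotate (n + 1)) (Equiv.refl Bool)) σW) '' K = K)
    (hr : ∀ u, Sum.inr u ∈ K → ρW u = 1)
    {ι : Equiv.Perm (NV (n + 1) W × Fin 3)} (hι : Val ι K)
    (he : ∀ i : Fin (n + 1), ι (Sum.inl (i, false), 0) = (Sum.inl (i, true), 0))
    (hφ : cj (Lp (sg 0 d2.γ) * sh0 σW ρW) ι = ι) (hs : (sgW ρW : ℤ) = -1)
    (a : ℕ) (ha : n + 1 = 2 ^ a)
    (hz : ∀ j : Fin 2, cl (cj (Lp fun _ => (![lk, ls] : Fin 2 → _) j) ι) K = 0) :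
    cl ι K = 0 := by
  have hθ1 : ∀ j, d2.θ j = 1 ∨ d2.θ j = lsw := fun j => Or.inr rfl
  have hη : ∀ j, ∃ β r, d2.η j = Equiv.prodCongr β r := fun j => ⟨_, _, rfl⟩
  have hT := ihx_terms d2 rfl hη rfl hθ1 hK σW ρW hKs hr hι he hφ (by rw [hs]; rfl)
  rw [(ihx_expand hK hι he).2]
  have hN : (nf 1 : Equiv.Perm (Fin (n + 1) → Fin 2)) ^ (2 ^ a) = 1 := by
    ext f : 1
    funext i
    rw [nf_one_pow, ← ha, rot_pow]
    rfl
  rw [sum_canc (nf 1) _ hT a hN]
  refine Finset.sum_eq_zero fun f hf => ?_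
  rw [Finset.mem_filter] at hf
  have h1 : ∀ i, f i = f 0 := by
    have h2 : ∀ i : Fin (n + 1), f (finRotate (n + 1) i) = f i := by
      intro i
      have := congrFun hf.2 (finRotate (n + 1) i)
      rw [nf_one, Equiv.symm_apply_apply] at this
      exact this.symm
    intro i
    induction i using Fin.induction with
    | zero => rfl
    | succ i ih =>
      have := h2 i.castSucc
      rw [finRotate_apply] at this
      rw [← Fin.coeSucc_eq_succ, this, ih]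
  have h3 : (fun i => (![lk, ls] : Fin 2 → Equiv.Perm LH) (f i)) = fun _ => ![lk, ls] (f 0) := by
    funext i; rw [h1 i]
  rw [h3, hz, smul_zero]

/-- the vertex permutation of the induced automorphism -/
def s2 (σW : Equiv.Perm W) : Equiv.Perm (NV (n + 1) W) :=
  (Equiv.sumCongr (Equiv.prodCongr (finRotate (n + 1)) (Equiv.refl Bool)) σW).trans (s1 bnot)

/-- its slot permutations -/
def r2 (ρW : W → Equiv.Perm (Fin 3)) : NV (n + 1) W → Equiv.Perm (Fin 3) :=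
  Sum.elim (fun _ => 1) ρW

theorem au2 (σW : Equiv.Perm W) (ρW : W → Equiv.Perm (Fin 3)) :
    Lp (sg 0 (Equiv.prodCongr bnot (1 : Equiv.Perm (Fin 3)))) * sh0 σW ρW =
      (au (s2 σW) (r2 ρW) : Equiv.Perm (NV (n + 1) W × Fin 3)) := by
  rw [Lp_eta]
  apply nv_ext
  · intro i b k
    rw [Equiv.Perm.mul_apply, sh0_inl, au_apply, au_apply]
    show (_, (r1 1 (Sum.inl (finRotate (n + 1) i, b))) k) = (_, k)
    rw [show (r1 1 (Sum.inl (finRotate (n + 1) i, b) : NV (n + 1) W) : Equiv.Perm (Fin 3)) = 1 by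
      unfold r1; simp]
    rfl
  · intro u k; rfl

theorem const_aut {σW : Equiv.Perm W} {ρW : W → Equiv.Perm (Fin 3)}
    {ι : Equiv.Perm (NV (n + 1) W × Fin 3)} (hinv : ∀ x, ι (ι x) = x)
    (he : ∀ i : Fin (n + 1), ι (Sum.inl (i, false), 0) = (Sum.inl (i, true), 0))
    (hφ : cj (Lp (sg 0 d2.γ) * sh0 σW ρW) ι = ι) (j : Fin 2) :
    cj (au (s2 σW) (r2 ρW)) (cj (Lp fun _ => (![lk, ls] : Fin 2 → _) j) ι) =
      cj (Lp fun _ => (![lk, ls] : Fin 2 → _) j) ι := by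
  have h := equi d2 σW ρW hφ (fun j => theta_fix hinv 0 (he 0)) (fun _ => j)
  have h1 : ∀ i, nf d2.τ (fun _ : Fin (n + 1) => j) i = j := by
    intro i
    show nf 1 (fun _ : Fin (n + 1) => j) i = j
    rw [nf_one]
  simp only [h1] at h
  rw [← au2]
  exact h

theorem s2_inr_pow (σW : Equiv.Perm W) (q : ℕ) (u : W) :
    ((s2 σW : Equiv.Perm (NV (n + 1) W)) ^ q) (Sum.inr u) = Sum.inr ((σW ^ q) u) := by
  induction q with
  | zero => rfl
  | succ q ih => rw [pow_succ', Equiv.Perm.mul_apply, ih, pow_succ']; rfl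

theorem s2_inl_pow (σW : Equiv.Perm W) (q : ℕ) (x : Fin (n + 1) × Bool) :
    ∃ y, ((s2 σW : Equiv.Perm (NV (n + 1) W)) ^ q) (Sum.inl x) = Sum.inl y := by
  induction q with
  | zero => exact ⟨x, rfl⟩
  | succ q ih =>
    obtain ⟨y, hy⟩ := ih
    rw [pow_succ', Equiv.Perm.mul_apply, hy]
    exact ⟨_, rfl⟩

theorem rq2_inl (σW : Equiv.Perm W) (ρW : W → Equiv.Perm (Fin 3)) (q : ℕ)
    (x : Fin (n + 1) × Bool) : rq (s2 σW) (r2 ρW) q (Sum.inl x : NV (n + 1) W) = 1 := by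
  induction q with
  | zero => rfl
  | succ q ih =>
    obtain ⟨y, hy⟩ := s2_inl_pow (n := n) σW q x
    rw [rq, ih, hy]
    rfl

theorem rq2_inr {V : Type} {s : Equiv.Perm V} {r : V → Equiv.Perm (Fin 3)} {em : W → V}
    {σW : Equiv.Perm W} (hσ : ∀ u, em (σW u) = s (em u)) (q : ℕ) (u : W) :
    em ((σW ^ q) u) = (s ^ q) (em u) ∧
    rq (s2 σW) (r2 fun u => r (em u)) q (Sum.inr u : NV (n + 1) W) = rq s r q (em u) := by
  induction q with
  | zero => exact ⟨rfl, rfl⟩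
  | succ q ih =>
    constructor
    · rw [pow_succ', pow_succ', Equiv.Perm.mul_apply, Equiv.Perm.mul_apply, hσ, ih.1]
    · rw [rq, rq, ih.2, s2_inr_pow]
      show r (em ((σW ^ q) u)) * _ = _
      rw [ih.1]

theorem fl2 {V : Type} {s : Equiv.Perm V} {r : V → Equiv.Perm (Fin 3)} {em : W → V}
    {σW : Equiv.Perm W} (hσ : ∀ u, em (σW u) = s (em u)) {x : NV (n + 1) W}
    (h : Fl (s2 σW) (r2 fun u => r (em u)) x) : ∃ u, x = Sum.inr u ∧ Fl s r (em u) := by
  obtain ⟨q, hq, hsq⟩ := h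
  rcases x with x | u
  · rw [rq2_inl] at hsq
    simp at hsq
  · refine ⟨u, rfl, q, ?_, ?_⟩
    · rw [s2_inr_pow] at hq
      rw [← (rq2_inr (n := n) (r := r) hσ q u).1, Sum.inr_injective hq]
    · rw [← (rq2_inr (n := n) (r := r) hσ q u).2]
      exact hsq

end

end Pool.Agent.Helper1.OA
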